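import Pool.Agent.Y344.KD.Three
import Pool.Agent.W296.HL3

/-! Bisectors of planar point sets after deletions. -/

set_option autoImplicit false

namespace Pool.Agent.Y344.KD

open Finset Pool.Agent.H189R2.Lev Pool.Agent.H189R2.Iid

open Pool.Agent.Results.MP_a08d0a_co.SmoothedLevel (Simple)

/-- coordinates for a planar point set -/
structure Frame (P : Finset (ℝ × ℝ)) (n : ℕ) where
  p : Fin n → ℝ × ℝ
  inj : Function.Injective p
  img : univ.image p = P
  a : Fin n → ℝ
  B : Fin n → ℝ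
  ainj : Function.Injective a
  simple : Simple a B
  low : ∀ i j, a j < a i → ∀ l, (ht a B l (cr a B i j) < ht a B i (cr a B i j) ↔
    0 < W296.HL.cr (p i) (p j) (p l))

theorem exists_frame {P : Finset (ℝ × ℝ)} (hP : W296.HL.Gen P) : Nonempty (Frame P P.card) := by
  classical
  set e := P.equivFin.symm with he
  set p : Fin P.card → ℝ × ℝ := fun l => (e l : ℝ × ℝ) with hp
  have hinj : Function.Injective p := fun i j h => e.injective (Subtype.ext h)
  have hmem : ∀ l, p l ∈ P := fun l => (e l).2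
  have himg : univ.image p = P := by
    ext x
    rw [mem_image]
    constructor
    · rintro ⟨l, -, rfl⟩
      exact hmem l
    · intro hx
      refine ⟨e.symm ⟨x, hx⟩, mem_univ _, ?_⟩
      rw [hp]
      simp
  obtain ⟨ε, hε⟩ := Infinite.exists_notMem_finset
    ((P ×ˢ P).image (fun z : (ℝ × ℝ) × (ℝ × ℝ) => (z.2.1 - z.1.1) / (z.1.2 - z.2.2)))
  have hsep : ∀ x ∈ P, ∀ y ∈ P, x.1 + ε * x.2 = y.1 + ε * y.2 → x = y := by
    intro x hx y hy h
    by_cases h2 : x.2 = y.2
    · rw [h2] at h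
      exact Prod.ext (by linarith) h2
    · exfalso
      apply hε
      rw [mem_image]
      refine ⟨(x, y), mem_product.mpr ⟨hx, hy⟩, ?_⟩
      simp only
      rw [div_eq_iff (sub_ne_zero.mpr h2)]
      linarith
  set a : Fin P.card → ℝ := fun l => (p l).1 + ε * (p l).2 with ha
  set B : Fin P.card → ℝ := fun l => (p l).2 with hB
  have hainj : Function.Injective a := fun i j h => hinj (hsep _ (hmem i) _ (hmem j) h)
  have hcr : ∀ i j l, W296.HL.cr (p i) (p j) (p l) =
      (a j - a i) * (B l - B i) - (B j - B i) * (a l - a i) := by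
    intro i j l
    simp only [W296.HL.cr, ha, hB]
    ring
  refine ⟨⟨p, hinj, himg, a, B, hainj, ⟨fun i j hij h => absurd (hainj h) hij, ?_⟩, ?_⟩⟩
  · rintro i j l hij hil hjl ⟨x, h1, h2⟩
    apply hP (p i) (hmem i) (p j) (hmem j) (p l) (hmem l) (hinj.ne hij) (hinj.ne hil) (hinj.ne hjl)
    rw [hcr]
    unfold ht at h1 h2
    have e1 : B j - B i = -((a j - a i) * x) := by linarith
    have e2 : B l - B i = -((a l - a i) * x) := by linarith
    rw [e1, e2]
    ring
  · intro i j hij l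
    have hpos : 0 < a i - a j := by linarith
    have hX : cr a B i j * (a i - a j) = B j - B i := by
      unfold cr
      rw [div_mul_cancel₀ _ hpos.ne']
    rw [hcr]
    have e1 : (a j - a i) * (B l - B i) - (B j - B i) * (a l - a i) =
        (a i - a j) * (ht a B i (cr a B i j) - ht a B l (cr a B i j)) := by
      unfold ht
      linear_combination (a l - a i) * hX
    rw [e1]
    constructor
    · intro h
      exact mul_pos hpos (by linarith)
    · intro h
      have := (mul_pos_iff_of_pos_left hpos).mp h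
      linarith

theorem Hv_card {P : Finset (ℝ × ℝ)} {p q : ℝ × ℝ} (hp : p ∈ P) (hq : q ∈ P) (hE : Even P.card)
    (h : W296.HL.Hv P p q) : 2 * (P.filter (fun x => 0 < W296.HL.cr p q x)).card + 2 = P.card := by
  classical
  have h2 : 2 ≤ P.card := by
    have hsub : ({p, q} : Finset (ℝ × ℝ)) ⊆ P := by
      intro x hx
      rw [mem_insert, mem_singleton] at hx
      rcases hx with rfl | rfl
      · exact hp
      · exact hq
    have := card_le_card hsub
    rwa [card_pair h.1] at this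
  rw [h.2.1]
  obtain ⟨m, hm⟩ := hE
  omega

/-- from balanced pairs to bisectors -/
theorem bisectors_le {P : Finset (ℝ × ℝ)} {n : ℕ} (F : Frame P n) {Q : Fin n → ℝ × ℝ}
    (hQ : ∀ i j, F.a j < F.a i → (Q j).1 < (Q i).1 ∧ ∀ l, (Q l ∈ low (Q i) (Q j) ↔
      ht F.a F.B l (cr F.a F.B i j) < ht F.a F.B i (cr F.a F.B i j)))
    {D : Finset (Fin n)} (hE : Even (Dᶜ.image F.p).card) :
    {L | W296.HL.IsBisector (Dᶜ.image F.p) L}.ncard ≤ (halv Q D).card := by
  classical
  set P' := Dᶜ.image F.p with hP'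
  have hc : P'.card = n - D.card := by
    rw [hP', card_image_of_injective _ F.inj, card_compl, Fintype.card_fin]
  have hset : ∀ i j, F.a j < F.a i →
      (lowSet Q (i, j) \ D).card = (P'.filter (fun x => 0 < W296.HL.cr (F.p i) (F.p j) x)).card := by
    intro i j hij
    rw [← card_image_of_injective _ F.inj]
    congr 1
    ext x
    rw [mem_image, mem_filter, hP', mem_image]
    constructor
    · rintro ⟨l, hl, rfl⟩
      rw [mem_lowD] at hl
      exact ⟨⟨l, mem_compl.mpr hl.2, rfl⟩,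
        (F.low i j hij l).mp (((hQ i j hij).2 l).mp hl.1)⟩
    · rintro ⟨⟨l, hl, rfl⟩, hx⟩
      refine ⟨l, mem_lowD.mpr ⟨((hQ i j hij).2 l).mpr ((F.low i j hij l).mpr hx), ?_⟩, rfl⟩
      exact mem_compl.mp hl
  have hsub : W296.HL.HH P' ⊆ (halv Q D).image (fun q => (F.p q.1, F.p q.2)) ∪
      (halv Q D).image (fun q => (F.p q.2, F.p q.1)) := by
    rintro ⟨x, y⟩ hz
    rw [W296.HL.mem_HH] at hz
    obtain ⟨hx, hy, hH⟩ := hz
    simp only at hx hy hH
    have hx' := hx
    have hy' := hy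
    rw [hP', mem_image] at hx hy
    obtain ⟨i, hi, rfl⟩ := hx
    obtain ⟨j, hj, rfl⟩ := hy
    have hij : i ≠ j := fun h => hH.1 (by rw [h])
    rcases lt_or_gt_of_ne (F.ainj.ne hij) with h | h
    · rw [mem_union]
      right
      rw [mem_image]
      refine ⟨(j, i), ?_, rfl⟩
      rw [mem_halv, mem_T]
      refine ⟨(hQ j i h).1, ?_⟩
      rw [hset j i h, ← hc]
      exact Hv_card hy' hx' hE hH.symm
    · rw [mem_union]
      left
      rw [mem_image]
      refine ⟨(i, j), ?_, rfl⟩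
      rw [mem_halv, mem_T]
      refine ⟨(hQ i j h).1, ?_⟩
      rw [hset i j h, ← hc]
      exact Hv_card hx' hy' hE hH
  have h1 := W296.HL.two_mul_ncard_le P'
  have h2 := (card_le_card hsub).trans (card_union_le _ _)
  have h3 := card_image_le (s := halv Q D) (f := fun q => (F.p q.1, F.p q.2))
  have h4 := card_image_le (s := halv Q D) (f := fun q => (F.p q.2, F.p q.1))
  omega

theorem few_tau {P : Finset (ℝ × ℝ)} (hP : W296.HL.Gen P) (hE : Even P.card) (τ : ℕ)
    (hτ : τ = 0 ∨ 12 * τ + 3 ≤ P.card) :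
    ∃ P' ⊆ P, Even P'.card ∧ P.card ≤ P'.card + 6 * τ ∧
      ({L | W296.HL.IsBisector P' L}.ncard : ℝ) ≤
        60 * (P.card : ℝ) ^ (4 / 3 : ℝ) * ((τ : ℝ) + 1) ^ (-(1 / 3) : ℝ) := by
  classical
  obtain ⟨F⟩ := exists_frame hP
  obtain ⟨Q, hGP, hQ⟩ := exists_GP F.simple
  have hT : ∃ Ts : Fin 3 → Finset (Fin P.card), (∀ s, 2 * τ ≤ (Ts s).card) ∧
      (∀ s t, s ≠ t → Disjoint (Ts s) (Ts t)) ∧
      ∀ i j, F.a j < F.a i → ∃ s,
        (∀ l ∈ Ts s, ht F.a F.B l (cr F.a F.B i j) < ht F.a F.B i (cr F.a F.B i j)) ∨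
        (∀ l ∈ Ts s, ¬ ht F.a F.B l (cr F.a F.B i j) < ht F.a F.B i (cr F.a F.B i j)) := by
    rcases hτ with rfl | hτ
    · refine ⟨fun _ => ∅, by simp, by simp, fun i j _ => ⟨0, Or.inl (by simp)⟩⟩
    · exact three_sets F.ainj F.simple (m := 2 * τ) (by omega)
  obtain ⟨Ts, hT1, hT2, hT3⟩ := hT
  obtain ⟨D, hD1, hD2, hD3⟩ := exists_unbalanced hGP hE τ Ts hT1 hT2 (by
    rintro ⟨i, j⟩ hq
    rw [mem_T] at hq
    simp only at hq
    have hij : F.a j < F.a i := by
      by_contra hcon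
      have hne : i ≠ j := by
        rintro rfl
        exact lt_irrefl _ hq
      have hlt : F.a i < F.a j := lt_of_le_of_ne (not_lt.mp hcon) (F.ainj.ne hne)
      exact lt_asymm hq (hQ j i hlt).1
    obtain ⟨s, hs⟩ := hT3 i j hij
    refine ⟨s, ?_⟩
    rcases hs with h | h
    · left
      intro l hl
      have := ((hQ i j hij).2 l).mpr (h l hl)
      simpa [lowSet] using this
    · right
      rw [disjoint_left]
      intro l hl hl'
      have h2 : Q l ∈ low (Q i) (Q j) := by simpa [lowSet] using hl'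
      exact h l hl (((hQ i j hij).2 l).mp h2))
  have hc : (Dᶜ.image F.p).card = P.card - D.card := by
    rw [card_image_of_injective _ F.inj, card_compl, Fintype.card_fin]
  have hDn : D.card ≤ P.card := by simpa using card_le_univ D
  have hE' : Even (Dᶜ.image F.p).card := by
    rw [hc]
    obtain ⟨u, hu⟩ := hE
    obtain ⟨v, hv⟩ := hD2
    exact ⟨u - v, by omega⟩
  refine ⟨Dᶜ.image F.p, ?_, hE', ?_, ?_⟩
  · intro x hx
    rw [mem_image] at hx
    obtain ⟨l, _, rfl⟩ := hx
    have : F.p l ∈ univ.image F.p := mem_image_of_mem _ (mem_univ _)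
    rwa [F.img] at this
  · rw [hc]
    omega
  · refine le_trans ?_ hD3
    exact_mod_cast bisectors_le F hQ hE'

theorem few_t {P : Finset (ℝ × ℝ)} (hP : W296.HL.Gen P) (hE : Even P.card) {t : ℝ} (h0 : 0 ≤ t)
    (ht : t ≤ P.card) :
    ∃ P' ⊆ P, Even P'.card ∧ (P.card : ℝ) - P'.card ≤ t ∧
      ({L | W296.HL.IsBisector P' L}.ncard : ℝ) ≤
        180 * (P.card : ℝ) ^ (4 / 3 : ℝ) * (t + 1) ^ (-(1 / 3) : ℝ) := by
  set τ : ℕ := ⌊t / 24⌋₊ with hτ
  have h1 : (τ : ℝ) ≤ t / 24 := Nat.floor_le (by positivity)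
  have h2 : t / 24 < τ + 1 := Nat.lt_floor_add_one _
  have h3 : τ = 0 ∨ 12 * τ + 3 ≤ P.card := by
    rcases Nat.eq_zero_or_pos τ with h | h
    · exact Or.inl h
    · right
      have h4 : (24 * τ : ℝ) ≤ P.card := by linarith
      have h5 : 24 * τ ≤ P.card := by exact_mod_cast h4
      omega
  obtain ⟨P', hsub, hE', hc, hb⟩ := few_tau hP hE τ h3
  refine ⟨P', hsub, hE', ?_, hb.trans ?_⟩
  · have h6 : (P.card : ℝ) ≤ P'.card + 6 * τ := by exact_mod_cast hc
    linarith
  · have hτ0 : (0 : ℝ) ≤ τ := Nat.cast_nonneg τ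
    have h7 : (t + 1) / 3 ^ 3 ≤ (τ : ℝ) + 1 := by
      have : (t + 1) / 25 ≤ (τ : ℝ) + 1 := by linarith
      have h8 : 0 ≤ t + 1 := by linarith
      norm_num
      linarith
    have h8 : ((τ : ℝ) + 1) ^ (-(1 / 3) : ℝ) ≤ 3 * (t + 1) ^ (-(1 / 3) : ℝ) := by
      calc ((τ : ℝ) + 1) ^ (-(1 / 3) : ℝ) ≤ ((t + 1) / 3 ^ 3) ^ (-(1 / 3) : ℝ) :=
            Real.rpow_le_rpow_of_nonpos (by positivity) h7 (by norm_num)
        _ = 3 * (t + 1) ^ (-(1 / 3) : ℝ) := by
            rw [Real.div_rpow (by linarith) (by norm_num), ← Real.rpow_natCast,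
              ← Real.rpow_mul (by norm_num)]
            norm_num
            ring
    calc 60 * (P.card : ℝ) ^ (4 / 3 : ℝ) * ((τ : ℝ) + 1) ^ (-(1 / 3) : ℝ) ≤
          60 * (P.card : ℝ) ^ (4 / 3 : ℝ) * (3 * (t + 1) ^ (-(1 / 3) : ℝ)) := by gcongr
      _ = _ := by ring

end Pool.Agent.Y344.KD
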