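import Pool.Agent.Y344.KD.Lines

/-! Existence of a small set of deleted elements. -/

set_option autoImplicit false

namespace Pool.Agent.Y344.KD

open Finset MeasureTheory Filter Pool.Agent.H189R2.Lev Pool.Agent.H189R2.Iid
open scoped Topology

open Pool.Agent.Results.MP_a08d0a_co.SmoothedLevel (Simple crossings psi psi_le)

variable {n : ℕ}

theorem exists_of_mean {r : ℝ} (h0 : 0 ≤ r) (h1 : r ≤ 1) (F : Finset (Fin n) → ℝ) {c : ℝ}
    (h : ∑ D : Finset (Fin n), wt r D * F D ≤ c) : ∃ D, F D ≤ c := by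
  by_contra hcon
  push Not at hcon
  obtain ⟨D0, _, hD0⟩ := Finset.exists_ne_zero_of_sum_ne_zero
    (s := (univ : Finset (Finset (Fin n)))) (f := fun D => wt r D) (by rw [sum_wt]; norm_num)
  have hlt : ∑ D : Finset (Fin n), wt r D * c < ∑ D : Finset (Fin n), wt r D * F D := by
    apply Finset.sum_lt_sum
    · intro D _
      exact mul_le_mul_of_nonneg_left (hcon D).le (wt_nonneg h0 h1 D)
    · exact ⟨D0, mem_univ _, mul_lt_mul_of_pos_left (hcon D0)
        (lt_of_le_of_ne (wt_nonneg h0 h1 D0) (Ne.symm hD0))⟩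
  rw [← sum_mul, sum_wt, one_mul] at hlt
  linarith

theorem few {P : Fin n → ℝ × ℝ} (hP : GP P) {ι : Type*} (K : Finset ι) (κ : ι → ℕ) {ρ : ℝ}
    (hρ0 : 0 < ρ) (hρ : ρ ≤ 1 / 2) :
    ∃ D : Finset (Fin n), (D.card : ℝ) ≤ ρ * n ∧
      ((∑ k ∈ K, cnt P (κ k) D : ℕ) : ℝ) ≤
        2000 * n * ∑ k ∈ K, (min ((κ k : ℝ) + 1) (1 / ρ)) ^ (1 / 3 : ℝ) := by
  classical
  rcases K.eq_empty_or_nonempty with rfl | hK
  · exact ⟨∅, by simp; positivity, by simp⟩
  rcases Nat.eq_zero_or_pos n with rfl | hn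
  · refine ⟨∅, by simp, ?_⟩
    have : ∀ k ∈ K, cnt P (κ k) ∅ = 0 := by
      intro k _
      unfold cnt
      rw [card_eq_zero]
      ext q
      exact Fin.elim0 q.1
    rw [sum_eq_zero this]
    simp
  have hn0 : (0 : ℝ) < n := by exact_mod_cast hn
  set A : ℝ := ∑ k ∈ K, 500 * n * (min ((κ k : ℝ) + 1) (1 / ρ)) ^ (1 / 3 : ℝ) with hA
  have hA0 : 0 < A := by
    apply sum_pos _ hK
    intro k _
    have : 0 < min ((κ k : ℝ) + 1) (1 / ρ) := lt_min (by positivity) (by positivity)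
    positivity
  set F : Finset (Fin n) → ℝ := fun D => ((∑ k ∈ K, cnt P (κ k) D : ℕ) : ℝ) * (ρ * n) +
    D.card * (4 * A) with hF
  have hcont : ∀ j k, Continuous (fun r => bb k j r) := by
    intro j k
    unfold bb
    fun_prop
  have hG : ∀ r : ℝ, ∑ D : Finset (Fin n), wt r D * F D =
      (ρ * n) * (∑ k ∈ K, ∑ q ∈ T P, bb (κ k) (lev P q) r) + 4 * A * (n * r) := by
    intro r
    have e1 : ∀ D : Finset (Fin n), wt r D * F D =
        (ρ * n) * (∑ k ∈ K, wt r D * cnt P (κ k) D) + 4 * A * (wt r D * D.card) := by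
      intro D
      rw [hF, ← mul_sum]
      push_cast
      ring
    rw [sum_congr rfl (fun D _ => e1 D), sum_add_distrib, ← mul_sum, ← mul_sum, sum_wt_card,
      sum_comm]
    congr 2
    apply sum_congr rfl
    intro k _
    rw [exp_cnt]
  have hex : ∃ r ∈ Set.Icc (0 : ℝ) ρ, ∑ D : Finset (Fin n), wt r D * F D ≤ 4 * A * (ρ * n) := by
    by_contra hcon
    push Not at hcon
    have hc1 : Continuous (fun r : ℝ => ∑ k ∈ K, ∑ q ∈ T P, bb (κ k) (lev P q) r) :=
      continuous_finsetSum _ (fun k _ => continuous_finsetSum _ (fun q _ => hcont _ (κ k)))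
    have hc2 : Continuous (fun r : ℝ => (ρ * n) * (∑ k ∈ K, ∑ q ∈ T P, bb (κ k) (lev P q) r) +
        4 * A * (n * r)) := by
      exact (continuous_const.mul hc1).add (by fun_prop)
    have h1 : ∫ r in (0 : ℝ)..ρ, (4 * A * (ρ * n)) ≤ ∫ r in (0 : ℝ)..ρ,
        ((ρ * n) * (∑ k ∈ K, ∑ q ∈ T P, bb (κ k) (lev P q) r) + 4 * A * (n * r)) := by
      apply intervalIntegral.integral_mono_on hρ0.le (by simp) (hc2.intervalIntegrable _ _)
      intro r hr
      rw [← hG]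
      exact (hcon r hr).le
    have h2 : ∫ r in (0 : ℝ)..ρ, (∑ k ∈ K, ∑ q ∈ T P, bb (κ k) (lev P q) r) ≤ ρ * A := by
      rw [intervalIntegral.integral_finsetSum (fun k _ => by
        apply Continuous.intervalIntegrable
        exact continuous_finsetSum _ (fun q _ => hcont _ (κ k))), hA, mul_sum]
      exact sum_le_sum (fun k _ => random_rate hP (κ k) hρ0 hρ)
    have hc3 : Continuous (fun r : ℝ => (ρ * n) * (∑ k ∈ K, ∑ q ∈ T P, bb (κ k) (lev P q) r)) :=
      continuous_const.mul hc1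
    have hc4 : Continuous (fun r : ℝ => 4 * A * (n * r)) := by fun_prop
    rw [intervalIntegral.integral_const, intervalIntegral.integral_add
      (hc3.intervalIntegrable _ _) (hc4.intervalIntegrable _ _),
      intervalIntegral.integral_const_mul,
      intervalIntegral.integral_const_mul, intervalIntegral.integral_const_mul, integral_id] at h1
    rw [sub_zero, smul_eq_mul] at h1
    have h3 : ρ * n * ∫ r in (0 : ℝ)..ρ, (∑ k ∈ K, ∑ q ∈ T P, bb (κ k) (lev P q) r) ≤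
        ρ * n * (ρ * A) := mul_le_mul_of_nonneg_left h2 (by positivity)
    have h4 : 0 < A * n * ρ ^ 2 := by positivity
    nlinarith
  obtain ⟨r, hr, hrF⟩ := hex
  obtain ⟨D, hD⟩ := exists_of_mean hr.1 (by linarith [hr.2]) F hrF
  rw [hF] at hD
  simp only at hD
  have hN0 : (0 : ℝ) ≤ ((∑ k ∈ K, cnt P (κ k) D : ℕ) : ℝ) := Nat.cast_nonneg _
  have hD0 : (0 : ℝ) ≤ D.card := Nat.cast_nonneg _
  have hρn : 0 < ρ * n := by positivity
  refine ⟨D, ?_, ?_⟩
  · have h1 : (D.card : ℝ) * (4 * A) ≤ (ρ * n) * (4 * A) := by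
      have : 0 ≤ ((∑ k ∈ K, cnt P (κ k) D : ℕ) : ℝ) * (ρ * n) := by positivity
      linarith
    exact le_of_mul_le_mul_right h1 (by positivity)
  · have h1 : ((∑ k ∈ K, cnt P (κ k) D : ℕ) : ℝ) * (ρ * n) ≤ (4 * A) * (ρ * n) := by
      have : 0 ≤ (D.card : ℝ) * (4 * A) := by positivity
      linarith
    have h2 := le_of_mul_le_mul_right h1 hρn
    refine h2.trans (le_of_eq ?_)
    rw [hA, ← mul_sum]
    ring

/-- the number of vertices of the `k`-level of a sub-arrangement -/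
theorem psi_cnt {a B : Fin n → ℝ} (hS : Simple a B) {P : Fin n → ℝ × ℝ}
    (hP : ∀ i j, a j < a i → (P j).1 < (P i).1 ∧ ∀ l, (P l ∈ low (P i) (P j) ↔
      ht a B l (cr a B i j) < ht a B i (cr a B i j))) (D : Finset (Fin n)) {k : ℕ}
    (hk : k < Dᶜ.card) :
    psi (sub a Dᶜ) (sub B Dᶜ) k ≤ (cnt P k D + (if k = 0 then 0 else cnt P (k - 1) D) : ℕ) := by
  refine (psi_le (simple_sub hS Dᶜ) hk).trans ?_
  apply Nat.cast_le.mpr
  apply Nat.add_le_add (cross_sub hP D k)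
  split_ifs
  · exact le_rfl
  · exact cross_sub hP D (k - 1)

theorem toNat_le {x : ℕ∞} {N : ℕ} (h : x ≤ N) : x ≠ ⊤ ∧ x.toNat ≤ N := by
  have hx : x ≠ ⊤ := ne_top_of_le_ne_top (ENat.natCast_ne_top N) h
  refine ⟨hx, ?_⟩
  have h1 : ((x.toNat : ℕ) : ℕ∞) ≤ N := by rw [ENat.natCast_toNat hx]; exact h
  exact_mod_cast h1

theorem random_deletions {a B : Fin n → ℝ} (hS : Simple a B) (k : ℕ) {r : ℝ} (hr0 : 0 < r)
    (hr : r ≤ 1 / 2) :
    (∀ D : Finset (Fin n), k < Dᶜ.card → psi (sub a Dᶜ) (sub B Dᶜ) k ≠ ⊤) ∧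
    ∑ D : Finset (Fin n) with k < Dᶜ.card,
      r ^ D.card * (1 - r) ^ (n - D.card) * (psi (sub a Dᶜ) (sub B Dᶜ) k).toNat ≤
      2000 * n * (((k : ℝ) + 1) / r) ^ (1 / 6 : ℝ) := by
  classical
  obtain ⟨P, hGP, hP⟩ := exists_GP hS
  refine ⟨fun D hk => (toNat_le (psi_cnt hS hP D hk)).1, ?_⟩
  have hw0 : ∀ D : Finset (Fin n), 0 ≤ wt r D := wt_nonneg hr0.le (by linarith)
  have h1 : ∑ D : Finset (Fin n) with k < Dᶜ.card,
      r ^ D.card * (1 - r) ^ (n - D.card) * ((psi (sub a Dᶜ) (sub B Dᶜ) k).toNat : ℝ) ≤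
      ∑ D : Finset (Fin n), wt r D * (cnt P k D + (if k = 0 then 0 else cnt P (k - 1) D) : ℕ) := by
    calc _ ≤ ∑ D : Finset (Fin n) with k < Dᶜ.card,
          wt r D * (cnt P k D + (if k = 0 then 0 else cnt P (k - 1) D) : ℕ) := by
          apply sum_le_sum
          intro D hD
          apply mul_le_mul_of_nonneg_left _ (hw0 D)
          exact_mod_cast (toNat_le (psi_cnt hS hP D (mem_filter.mp hD).2)).2
      _ ≤ _ := sum_le_sum_of_subset_of_nonneg (filter_subset _ _)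
          (fun D _ _ => mul_nonneg (hw0 D) (Nat.cast_nonneg _))
  refine h1.trans ?_
  have h2 := fixed_rate hGP k hr0 hr
  have hn0 : (0 : ℝ) ≤ n := Nat.cast_nonneg n
  have hk0 : (0 : ℝ) ≤ k := Nat.cast_nonneg k
  have hg0 : 0 ≤ (((k : ℝ) + 1) / r) ^ (1 / 6 : ℝ) := by positivity
  rcases Nat.eq_zero_or_pos k with rfl | hk
  · simp only [if_true, add_zero]
    refine h2.trans ?_
    have : 0 ≤ n * ((((0 : ℕ) : ℝ) + 1) / r) ^ (1 / 6 : ℝ) := by positivity
    nlinarith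
  · simp only [if_neg hk.ne']
    have h3 := fixed_rate hGP (k - 1) hr0 hr
    have h4 : ((((k - 1 : ℕ) : ℝ) + 1) / r) ^ (1 / 6 : ℝ) ≤ (((k : ℝ) + 1) / r) ^ (1 / 6 : ℝ) := by
      apply Real.rpow_le_rpow (by positivity) _ (by norm_num)
      have : ((k - 1 : ℕ) : ℝ) ≤ k := by exact_mod_cast Nat.sub_le k 1
      gcongr
    have h5 : ∑ D : Finset (Fin n), wt r D * ((cnt P k D + cnt P (k - 1) D : ℕ) : ℝ) =
        ∑ D : Finset (Fin n), wt r D * cnt P k D + ∑ D : Finset (Fin n), wt r D * cnt P (k - 1) D := by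
      rw [← sum_add_distrib]
      apply sum_congr rfl
      intro D _
      push_cast
      ring
    rw [h5]
    have h6 : 1000 * n * ((((k - 1 : ℕ) : ℝ) + 1) / r) ^ (1 / 6 : ℝ) ≤
        1000 * n * (((k : ℝ) + 1) / r) ^ (1 / 6 : ℝ) := by gcongr
    linarith

theorem few_deletions {a B : Fin n → ℝ} (hS : Simple a B) (K : Finset ℕ) {δ : ℝ} (hδ0 : 0 < δ)
    (hδ : δ ≤ 1) :
    ∃ R : Finset (Fin n), (1 - δ) * n ≤ R.card ∧
      (∀ k < R.card, psi (sub a R) (sub B R) k ≠ ⊤) ∧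
      ∑ k ∈ K with k < R.card, ((psi (sub a R) (sub B R) k).toNat : ℝ) ≤
        8000 * n * ∑ k ∈ K, (min ((k : ℝ) + 1) (1 / δ)) ^ (1 / 3 : ℝ) := by
  classical
  obtain ⟨P, hGP, hP⟩ := exists_GP hS
  have hn0 : (0 : ℝ) ≤ n := Nat.cast_nonneg n
  set ρ : ℝ := δ / 2 with hρ
  have hρ0 : 0 < ρ := by positivity
  obtain ⟨D, hD, hN⟩ := few hGP (K ×ˢ (univ : Finset Bool))
    (fun x => if x.2 then x.1 else x.1 - 1) hρ0 (by linarith : ρ ≤ 1 / 2)
  rw [sum_product, sum_product] at hN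
  simp only [Fintype.sum_bool, if_true, Bool.false_eq_true, if_false] at hN
  have hcard : (D.card : ℝ) + Dᶜ.card = n := by
    have := Finset.card_add_card_compl D
    rw [Fintype.card_fin] at this
    exact_mod_cast this
  refine ⟨Dᶜ, ?_, fun k hk => (toNat_le (psi_cnt hS hP D hk)).1, ?_⟩
  · have : D.card ≤ δ * n := hD.trans (by rw [hρ]; nlinarith)
    linarith
  · have h1 : ∑ k ∈ K with k < Dᶜ.card, ((psi (sub a Dᶜ) (sub B Dᶜ) k).toNat : ℝ) ≤
        ((∑ k ∈ K, (cnt P k D + cnt P (k - 1) D) : ℕ) : ℝ) := by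
      push_cast
      calc ∑ k ∈ K with k < Dᶜ.card, ((psi (sub a Dᶜ) (sub B Dᶜ) k).toNat : ℝ) ≤
            ∑ k ∈ K with k < Dᶜ.card, ((cnt P k D : ℝ) + cnt P (k - 1) D) := by
            apply sum_le_sum
            intro k hk
            have h2 := (toNat_le (psi_cnt hS hP D (mem_filter.mp hk).2)).2
            have h3 : (if k = 0 then 0 else cnt P (k - 1) D) ≤ cnt P (k - 1) D := by
              split_ifs
              · exact Nat.zero_le _
              · exact le_rfl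
            exact_mod_cast h2.trans (Nat.add_le_add_left h3 _)
        _ ≤ _ := sum_le_sum_of_subset_of_nonneg (filter_subset _ _) (fun _ _ _ => by positivity)
    refine h1.trans (hN.trans ?_)
    rw [mul_sum, mul_sum]
    apply sum_le_sum
    intro k _
    have hk0 : (0 : ℝ) ≤ k := Nat.cast_nonneg k
    have hm : ∀ m : ℕ, m ≤ k → (min ((m : ℝ) + 1) (1 / ρ)) ^ (1 / 3 : ℝ) ≤
        2 * (min ((k : ℝ) + 1) (1 / δ)) ^ (1 / 3 : ℝ) := by
      intro m hmk
      have hmk' : (m : ℝ) ≤ k := by exact_mod_cast hmk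
      have e1 : min ((m : ℝ) + 1) (1 / ρ) ≤ 2 ^ 3 * min ((k : ℝ) + 1) (1 / δ) := by
        rw [mul_min_of_nonneg _ _ (by norm_num)]
        apply min_le_min
        · linarith
        · rw [hρ, one_div_div, ← mul_one_div]
          have : 0 < 1 / δ := by positivity
          nlinarith
      have e0 : 0 ≤ min ((m : ℝ) + 1) (1 / ρ) := le_min (by positivity) (by positivity)
      have e2 : 0 ≤ min ((k : ℝ) + 1) (1 / δ) := le_min (by positivity) (by positivity)
      calc (min ((m : ℝ) + 1) (1 / ρ)) ^ (1 / 3 : ℝ) ≤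
            (2 ^ 3 * min ((k : ℝ) + 1) (1 / δ)) ^ (1 / 3 : ℝ) :=
            Real.rpow_le_rpow e0 e1 (by norm_num)
        _ = 2 * (min ((k : ℝ) + 1) (1 / δ)) ^ (1 / 3 : ℝ) := by
            rw [Real.mul_rpow (by norm_num) e2, ← Real.rpow_natCast, ← Real.rpow_mul (by norm_num)]
            norm_num
    have h2 := hm k le_rfl
    have h3 := hm (k - 1) (Nat.sub_le k 1)
    calc 2000 * (n : ℝ) * ((min ((k : ℝ) + 1) (1 / ρ)) ^ (1 / 3 : ℝ) +
          (min (((k - 1 : ℕ) : ℝ) + 1) (1 / ρ)) ^ (1 / 3 : ℝ)) ≤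
          2000 * (n : ℝ) * (2 * (min ((k : ℝ) + 1) (1 / δ)) ^ (1 / 3 : ℝ) +
            2 * (min ((k : ℝ) + 1) (1 / δ)) ^ (1 / 3 : ℝ)) := by gcongr
      _ = _ := by ring

end Pool.Agent.Y344.KD
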