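import Pool.Agent.H189R2.Iid.Gen
import Pool.Agent.Results.MP_a08d0a_co.SmoothedLevel

/-! Perturbation of a simple arrangement of lines (parallel lines allowed) to general position. -/

set_option autoImplicit false

namespace Pool.Agent.Y344.KD

open Finset MeasureTheory Filter Pool.Agent.H189R2.Lev Pool.Agent.H189R2.Iid
open scoped ENNReal Topology

open Pool.Agent.Results.MP_a08d0a_co.SmoothedLevel (Simple crossings psi psi_le)

theorem volume_line (a b c : ℝ) (hab : a ≠ 0 ∨ b ≠ 0) :
    (volume : Measure (ℝ × ℝ)) {y | a * y.1 + b * y.2 = c} = 0 := by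
  have hm : MeasurableSet {y : ℝ × ℝ | a * y.1 + b * y.2 = c} :=
    measurableSet_eq_fun ((measurable_fst.const_mul a).add (measurable_snd.const_mul b))
      measurable_const
  rw [Measure.volume_eq_prod, Measure.measure_prod_null hm]
  by_cases hb : b = 0
  · have ha : a ≠ 0 := by
      rcases hab with h | h
      · exact h
      · exact absurd hb h
    have h1 : ∀ᵐ x : ℝ ∂volume, x ≠ c / a := by
      rw [ae_iff]
      simp
    filter_upwards [h1] with x hx
    have : Prod.mk x ⁻¹' {y : ℝ × ℝ | a * y.1 + b * y.2 = c} = ∅ := by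
      ext z
      simp only [Set.mem_preimage, Set.mem_ofPred_eq, Set.mem_empty_iff_false, iff_false, hb]
      intro h
      apply hx
      rw [eq_div_iff ha]
      linarith
    rw [this]
    simp
  · filter_upwards with x
    have : Prod.mk x ⁻¹' {y : ℝ × ℝ | a * y.1 + b * y.2 = c} ⊆ {(c - a * x) / b} := by
      intro z hz
      simp only [Set.mem_preimage, Set.mem_ofPred_eq] at hz
      rw [Set.mem_singleton_iff, eq_div_iff hb]
      linarith
    exact measure_mono_null this (by simp)

/-- configurations in general position are dense -/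
theorem exists_near {n : ℕ} (P0 : Fin n → ℝ × ℝ) {U : Set (Fin n → ℝ × ℝ)} (hU : U ∈ 𝓝 P0) :
    ∃ P ∈ U, GP P := by
  obtain ⟨ε, hε, hball⟩ := Metric.mem_nhds_iff.mp hU
  set R : ℝ := ‖P0‖ + 1 with hR
  set big : Set (ℝ × ℝ) := Metric.ball 0 R with hbig
  have hbm : MeasurableSet big := measurableSet_ball
  have hb0 : (volume : Measure (ℝ × ℝ)) big ≠ 0 :=
    (Metric.measure_ball_pos volume 0 (by positivity)).ne'
  have hb1 : (volume : Measure (ℝ × ℝ)) big ≠ ∞ := measure_ball_lt_top.ne
  set μ : Measure (ℝ × ℝ) := ProbabilityTheory.cond volume big with hμ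
  have hprob : IsProbabilityMeasure μ :=
    ProbabilityTheory.cond_isProbabilityMeasure_of_finite hb0 hb1
  have hLN : LN μ := by
    intro a b c hab
    rw [hμ, ProbabilityTheory.cond_apply hbm]
    have : (volume : Measure (ℝ × ℝ)) (big ∩ {y | a * y.1 + b * y.2 = c}) = 0 :=
      measure_mono_null Set.inter_subset_right (volume_line a b c hab)
    rw [this, mul_zero]
  have hpos : Measure.pi (fun _ : Fin n => μ) (Set.pi Set.univ (fun l => Metric.ball (P0 l) ε))
      ≠ 0 := by
    rw [Measure.pi_pi, Finset.prod_ne_zero_iff]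
    intro l _
    rw [hμ, ProbabilityTheory.cond_apply hbm]
    apply mul_ne_zero
    · exact ENNReal.inv_ne_zero.mpr hb1
    · have hopen : IsOpen (big ∩ Metric.ball (P0 l) ε) := Metric.isOpen_ball.inter Metric.isOpen_ball
      refine (hopen.measure_pos volume ⟨P0 l, ?_, Metric.mem_ball_self hε⟩).ne'
      rw [hbig, mem_ball_zero_iff, hR]
      have := norm_le_pi_norm P0 l
      linarith
  by_contra hcon
  push Not at hcon
  apply hpos
  have hnull : Measure.pi (fun _ : Fin n => μ) {P | ¬ GP P} = 0 := ae_iff.mp (ae_GP hLN n)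
  refine measure_mono_null ?_ hnull
  intro P hP
  apply hcon
  apply hball
  rw [Metric.mem_ball, dist_pi_lt_iff hε]
  intro l
  exact hP l (Set.mem_univ l)

/-- A simple arrangement of lines (parallel lines allowed) can be perturbed to general position,
without changing which lines pass below the crossing points of the non-parallel pairs. -/
theorem exists_GP {n : ℕ} {a B : Fin n → ℝ} (hS : Simple a B) : ∃ P : Fin n → ℝ × ℝ, GP P ∧
    ∀ i j, a j < a i → (P j).1 < (P i).1 ∧ ∀ l, (P l ∈ low (P i) (P j) ↔
      ht a B l (cr a B i j) < ht a B i (cr a B i j)) := by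
  set P0 : Fin n → ℝ × ℝ := fun l => (a l, B l) with hP0
  have hc : ∀ l : Fin n, Continuous (fun P : Fin n → ℝ × ℝ => P l) := fun l => continuous_apply l
  have h1 : ∀ᶠ P in 𝓝 P0, ∀ i j, a j < a i → (P j).1 < (P i).1 := by
    rw [eventually_all]; intro i
    rw [eventually_all]; intro j
    by_cases h : a j < a i
    · have h' : (P0 j).1 < (P0 i).1 := h
      filter_upwards [((hc j).fst.tendsto P0).eventually_lt ((hc i).fst.tendsto P0) h'] with P hP _
      exact hP
    · exact Eventually.of_forall (fun _ h' => absurd h' h)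
  have h2 : ∀ᶠ P in 𝓝 P0, ∀ i j l, a j < a i → l ≠ i → l ≠ j → (P l ∈ low (P i) (P j) ↔
      ht a B l (cr a B i j) < ht a B i (cr a B i j)) := by
    rw [eventually_all]; intro i
    rw [eventually_all]; intro j
    rw [eventually_all]; intro l
    by_cases h : a j < a i
    swap
    · exact Eventually.of_forall (fun _ h' => absurd h' h)
    by_cases hli : l = i
    · exact Eventually.of_forall (fun _ _ h' => absurd hli h')
    by_cases hlj : l = j
    · exact Eventually.of_forall (fun _ _ _ h' => absurd hlj h')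
    have hX : ContinuousAt (fun P : Fin n → ℝ × ℝ => X2 (P i) (P j)) P0 := by
      unfold X2
      apply ContinuousAt.div
      · exact ((hc j).snd.sub (hc i).snd).continuousAt
      · exact ((hc i).fst.sub (hc j).fst).continuousAt
      · have : (P0 j).1 < (P0 i).1 := h
        linarith
    have hL : ContinuousAt (fun P : Fin n → ℝ × ℝ => (P l).1 * X2 (P i) (P j) + (P l).2) P0 :=
      ((hc l).fst.continuousAt.mul hX).add (hc l).snd.continuousAt
    have hY : ContinuousAt (fun P : Fin n → ℝ × ℝ => Y2 (P i) (P j)) P0 := by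
      unfold Y2
      exact ((hc i).fst.continuousAt.mul hX).add (hc i).snd.continuousAt
    have eL : (P0 l).1 * X2 (P0 i) (P0 j) + (P0 l).2 = ht a B l (cr a B i j) := rfl
    have eY : Y2 (P0 i) (P0 j) = ht a B i (cr a B i j) := rfl
    have hij : i ≠ j := fun hh => by rw [hh] at h; exact lt_irrefl _ h
    rcases lt_trichotomy (ht a B l (cr a B i j)) (ht a B i (cr a B i j)) with hlt | heq | hgt
    · have h3 := hL.eventually_lt hY (by rw [eL, eY]; exact hlt)
      filter_upwards [h3] with P hP _ _ _
      exact ⟨fun _ => hlt, fun _ => hP⟩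
    · exfalso
      exact hS.2 i j l hij (Ne.symm hli) (Ne.symm hlj) ⟨cr a B i j, (ht_cr h.ne').symm, heq.symm⟩
    · have h3 := hY.eventually_lt hL (by rw [eL, eY]; exact hgt)
      filter_upwards [h3] with P hP _ _ _
      refine ⟨fun hmem => ?_, fun hh => absurd hh (not_lt.mpr hgt.le)⟩
      have hmem' : (P l).1 * X2 (P i) (P j) + (P l).2 < Y2 (P i) (P j) := hmem
      exact absurd hmem' (not_lt.mpr hP.le)
  obtain ⟨P, ⟨hP1, hP2⟩, hP⟩ := exists_near P0 (h1.and h2)
  refine ⟨P, hP, fun i j hij => ⟨hP1 i j hij, fun l => ?_⟩⟩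
  by_cases hli : l = i
  · subst hli
    exact ⟨fun h => absurd h (fst_notMem_low _ _), fun h => absurd h (lt_irrefl _)⟩
  by_cases hlj : l = j
  · subst hlj
    refine ⟨fun h => absurd h (snd_notMem_low (hP1 i l hij)), fun h => ?_⟩
    rw [ht_cr hij.ne'] at h
    exact absurd h (lt_irrefl _)
  · exact hP2 i j l hij hli hlj

end Pool.Agent.Y344.KD
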