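import Pool.Agent.H189R2.Iid.Bin

/-! Random subsets: every element is deleted independently with probability `r`. -/

set_option autoImplicit false

namespace Pool.Agent.Y344.KD

open Finset Polynomial

/-- probability that exactly `k` of `j` elements survive, if each is deleted with probability `r` -/
noncomputable def bb (k j : ℕ) (r : ℝ) : ℝ := (j.choose k : ℝ) * ((1 - r) ^ k * r ^ (j - k))

/-- weight of a set of deleted elements -/
noncomputable def wt {n : ℕ} (r : ℝ) (D : Finset (Fin n)) : ℝ := r ^ D.card * (1 - r) ^ (n - D.card)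

theorem wt_nonneg {n : ℕ} {r : ℝ} (h0 : 0 ≤ r) (h1 : r ≤ 1) (D : Finset (Fin n)) : 0 ≤ wt r D := by
  unfold wt
  have : 0 ≤ 1 - r := by linarith
  positivity

theorem bb_nonneg (k j : ℕ) {r : ℝ} (h0 : 0 ≤ r) (h1 : r ≤ 1) : 0 ≤ bb k j r := by
  unfold bb
  have : 0 ≤ 1 - r := by linarith
  positivity

theorem bb_zero {k j : ℕ} (h : j < k) (r : ℝ) : bb k j r = 0 := by
  unfold bb
  rw [Nat.choose_eq_zero_of_lt h]
  simp

/-- the number of survivors in a set `S` -/
theorem marg {n : ℕ} (S : Finset (Fin n)) (k : ℕ) (r : ℝ) :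
    ∑ D : Finset (Fin n), (if (S \ D).card = k then wt r D else 0) = bb k S.card r := by
  have h1 := Fintype.prod_add (fun _ : Fin n => (C r : ℝ[X]))
    (fun l => if l ∈ S then C (1 - r) * X else C (1 - r))
  have h2 : ∏ l : Fin n, ((C r : ℝ[X]) + if l ∈ S then C (1 - r) * X else C (1 - r)) =
      (C (1 - r) * X + C r) ^ S.card := by
    have : ∀ l : Fin n, ((C r : ℝ[X]) + if l ∈ S then C (1 - r) * X else C (1 - r)) =
        if l ∈ S then (C (1 - r) * X + C r) else 1 := by
      intro l
      split_ifs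
      · ring
      · rw [← C_add]
        norm_num
    rw [prod_congr rfl (fun l _ => this l), prod_ite, prod_const, prod_const_one, mul_one]
    congr 1
    congr 1
    ext l
    simp
  have h3 : ∀ D : Finset (Fin n), (∏ l ∈ D, (C r : ℝ[X])) *
      ∏ l ∈ Dᶜ, (if l ∈ S then C (1 - r) * X else C (1 - r)) = C (wt r D) * X ^ (S \ D).card := by
    intro D
    have e1 : ∀ l : Fin n, (if l ∈ S then C (1 - r) * X else C (1 - r) : ℝ[X]) =
        C (1 - r) * (if l ∈ S then X else 1) := by
      intro l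
      split_ifs <;> simp
    rw [prod_congr rfl (fun l _ => e1 l), prod_mul_distrib, prod_const, prod_const, prod_ite,
      prod_const, prod_const_one, mul_one]
    have e2 : Dᶜ.filter (fun l => l ∈ S) = S \ D := by
      ext l
      simp only [mem_filter, mem_compl, mem_sdiff]
      tauto
    rw [e2, card_compl, Fintype.card_fin]
    unfold wt
    rw [C_mul, C_pow, C_pow]
    ring
  rw [h2] at h1
  simp only [h3] at h1
  have h4 := congrArg (fun p : ℝ[X] => p.coeff k) h1
  simp only [finsetSum_coeff, coeff_C_mul_X_pow] at h4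
  rw [add_pow, finsetSum_coeff] at h4
  have h5 : ∀ D : Finset (Fin n), (if (S \ D).card = k then wt r D else 0) =
      if k = (S \ D).card then wt r D else 0 := by
    intro D
    simp only [eq_comm]
  rw [sum_congr rfl (fun D _ => h5 D), ← h4]
  have h6 : ∀ m ∈ range (S.card + 1), (((C (1 - r) * X) ^ m * C r ^ (S.card - m) *
      ((S.card.choose m : ℕ) : ℝ[X])) : ℝ[X]).coeff k =
      if k = m then (S.card.choose m : ℝ) * ((1 - r) ^ m * r ^ (S.card - m)) else 0 := by
    intro m _
    have : ((C (1 - r) * X) ^ m * C r ^ (S.card - m) * ((S.card.choose m : ℕ) : ℝ[X]) : ℝ[X]) =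
        C ((S.card.choose m : ℝ) * ((1 - r) ^ m * r ^ (S.card - m))) * X ^ m := by
      rw [mul_pow, C_mul, C_mul, C_pow, C_pow]
      simp only [map_natCast]
      ring
    rw [this, coeff_C_mul_X_pow]
  rw [sum_congr rfl h6]
  by_cases hk : k ∈ range (S.card + 1)
  · rw [sum_ite_eq, if_pos hk]
    rfl
  · rw [sum_ite_eq, if_neg hk, bb_zero (by rw [mem_range] at hk; omega)]

theorem sum_wt {n : ℕ} (r : ℝ) : ∑ D : Finset (Fin n), wt r D = 1 := by
  have := marg (n := n) ∅ 0 r
  simpa [bb] using this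

theorem sum_wt_card {n : ℕ} (r : ℝ) : ∑ D : Finset (Fin n), wt r D * D.card = n * r := by
  classical
  have h1 : ∀ D : Finset (Fin n), wt r D * (D.card : ℝ) =
      ∑ l : Fin n, (if (({l} : Finset (Fin n)) \ D).card = 0 then wt r D else 0) := by
    intro D
    have : ∀ l : Fin n, (if (({l} : Finset (Fin n)) \ D).card = 0 then wt r D else 0) =
        if l ∈ D then wt r D else 0 := by
      intro l
      by_cases hl : l ∈ D
      · rw [if_pos hl, if_pos]
        rw [card_eq_zero, sdiff_eq_empty_iff_subset]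
        simpa using hl
      · rw [if_neg hl, if_neg]
        rw [card_eq_zero, sdiff_eq_empty_iff_subset]
        simpa using hl
    rw [sum_congr rfl (fun l _ => this l), sum_ite_mem, univ_inter, sum_const, nsmul_eq_mul]
    ring
  rw [sum_congr rfl (fun D _ => h1 D), sum_comm]
  have h2 : ∀ l : Fin n, ∑ D : Finset (Fin n),
      (if (({l} : Finset (Fin n)) \ D).card = 0 then wt r D else 0) = r := by
    intro l
    rw [marg, card_singleton]
    simp [bb]
  rw [sum_congr rfl (fun l _ => h2 l)]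
  simp

/-- the total over all sizes -/
theorem bb_sum (k J : ℕ) {r : ℝ} (h0 : 0 ≤ r) (h1 : r ≤ 1 / 2) : ∑ j ∈ range J, bb k j r ≤ 2 := by
  have hr1 : 0 < 1 - r := by linarith
  calc ∑ j ∈ range J, bb k j r ≤ ∑ j ∈ range (k + J), bb k j r :=
        sum_le_sum_of_subset_of_nonneg (range_subset_range.mpr (by omega))
          (fun j _ _ => bb_nonneg k j h0 (by linarith))
    _ = ∑ i ∈ range J, bb k (k + i) r := by
        rw [sum_range_add, sum_eq_zero (fun j hj => bb_zero (mem_range.mp hj) r), zero_add]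
    _ = (1 - r) ^ k * ∑ i ∈ range J, ((i + k).choose k : ℝ) * r ^ i := by
        rw [mul_sum]
        apply sum_congr rfl
        intro i _
        unfold bb
        rw [Nat.add_sub_cancel_left, add_comm k i]
        ring
    _ ≤ (1 - r) ^ k * (1 / (1 - r) ^ (k + 1)) := by
        apply mul_le_mul_of_nonneg_left _ (by positivity)
        have hs := hasSum_choose_mul_geometric_of_norm_lt_one k (r := r)
          (by rw [Real.norm_eq_abs, abs_of_nonneg h0]; linarith)
        exact sum_le_hasSum (range J) (fun i _ => by positivity) hs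
    _ = 1 / (1 - r) := by
        rw [pow_succ]
        field_simp
    _ ≤ 2 := by
        rw [div_le_iff₀ hr1]
        linarith

theorem bb_le_one (k j : ℕ) {r : ℝ} (h0 : 0 ≤ r) (h1 : r ≤ 1) : bb k j r ≤ 1 := by
  have hj : (univ : Finset (Fin j)).card = j := by simp
  have := marg (n := j) univ k r
  rw [hj] at this
  rw [← this, ← sum_wt (n := j) r]
  apply sum_le_sum
  intro D _
  split_ifs
  · exact le_rfl
  · exact wt_nonneg h0 h1 D

/-- geometric decay -/
theorem bb_dec {k j : ℕ} {r : ℝ} (h0 : 0 ≤ r) (h1 : r ≤ 1 / 2) (h : 4 * (k + 1) ≤ j) :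
    bb k (j + 1) r ≤ 2 / 3 * bb k j r := by
  have hc := Nat.choose_mul_succ_eq j k
  have hc' : (j.choose k : ℝ) * (j + 1) = ((j + 1).choose k : ℝ) * ((j : ℝ) + 1 - k) := by
    have e : ((j + 1 - k : ℕ) : ℝ) = (j : ℝ) + 1 - k := by
      rw [Nat.cast_sub (by omega)]
      push_cast
      ring
    rw [← e]
    exact_mod_cast hc
  have hkj : (4 : ℝ) * (k + 1) ≤ j := by exact_mod_cast h
  have hk0 : (0 : ℝ) ≤ k := Nat.cast_nonneg k
  have hpos : (0 : ℝ) < (j : ℝ) + 1 - k := by linarith
  have e1 : r ^ (j + 1 - k) = r * r ^ (j - k) := by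
    rw [show j + 1 - k = (j - k) + 1 by omega, pow_succ]
    ring
  have key : ((j + 1).choose k : ℝ) * r ≤ 2 / 3 * (j.choose k : ℝ) := by
    have h2 : ((j + 1).choose k : ℝ) = (j.choose k : ℝ) * (j + 1) / ((j : ℝ) + 1 - k) := by
      rw [hc']
      field_simp
    rw [h2]
    have h3 : ((j : ℝ) + 1) / ((j : ℝ) + 1 - k) * r ≤ 2 / 3 := by
      rw [div_mul_eq_mul_div, div_le_iff₀ hpos]
      nlinarith
    have hch : (0 : ℝ) ≤ (j.choose k : ℝ) := Nat.cast_nonneg _
    calc (j.choose k : ℝ) * (j + 1) / ((j : ℝ) + 1 - k) * r =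
          (j.choose k : ℝ) * (((j : ℝ) + 1) / ((j : ℝ) + 1 - k) * r) := by ring
      _ ≤ (j.choose k : ℝ) * (2 / 3) := mul_le_mul_of_nonneg_left h3 hch
      _ = _ := by ring
  unfold bb
  rw [e1]
  have hnn : 0 ≤ (1 - r) ^ k * r ^ (j - k) := by
    have : 0 ≤ 1 - r := by linarith
    positivity
  calc ((j + 1).choose k : ℝ) * ((1 - r) ^ k * (r * r ^ (j - k))) =
        (((j + 1).choose k : ℝ) * r) * ((1 - r) ^ k * r ^ (j - k)) := by ring
    _ ≤ (2 / 3 * (j.choose k : ℝ)) * ((1 - r) ^ k * r ^ (j - k)) :=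
        mul_le_mul_of_nonneg_right key hnn
    _ = _ := by ring

theorem exp_neg_le {t : ℝ} (ht : 0 < t) : Real.exp (-t) ≤ 1 / (2 * Real.sqrt t) := by
  have h1 : 1 + t ≤ Real.exp t := by
    have := Real.add_one_le_exp t
    linarith
  have hs : 0 < Real.sqrt t := Real.sqrt_pos.mpr ht
  have hs2 : Real.sqrt t ^ 2 = t := Real.sq_sqrt ht.le
  have h2 : 2 * Real.sqrt t ≤ 1 + t := by nlinarith [sq_nonneg (Real.sqrt t - 1)]
  rw [Real.exp_neg, inv_eq_one_div]
  exact one_div_le_one_div_of_le (by positivity) (h2.trans h1)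

/-- the largest binomial probability -/
theorem bb_sup {k j : ℕ} {r : ℝ} (hr : 0 < r) (hr2 : r ≤ 1 / 2) (hj : 1 ≤ j) :
    bb k j r ≤ 4 / Real.sqrt (r * j) := by
  have hj0 : (0 : ℝ) < j := by exact_mod_cast hj
  have hrj : 0 < r * j := by positivity
  have hs : 0 < Real.sqrt (r * j) := Real.sqrt_pos.mpr hrj
  have hsj : Real.sqrt (r * j) ≤ Real.sqrt j := Real.sqrt_le_sqrt (by nlinarith)
  have hsj0 : 0 < Real.sqrt j := Real.sqrt_pos.mpr hj0
  have hmono : 1 / Real.sqrt j ≤ 1 / Real.sqrt (r * j) := one_div_le_one_div_of_le hs hsj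
  rcases lt_or_ge j k with hkj | hkj
  · rw [bb_zero hkj]
    positivity
  rcases Nat.eq_zero_or_pos k with rfl | hk
  · -- k = 0
    have h1 : bb 0 j r = r ^ j := by simp [bb]
    rw [h1]
    have h2 : r ≤ Real.exp (-(1 / 2)) := by
      have := Real.add_one_le_exp (-(1 / 2) : ℝ)
      linarith
    have h3 : r ^ j ≤ Real.exp (-(j / 2)) := by
      calc r ^ j ≤ Real.exp (-(1 / 2)) ^ j := pow_le_pow_left₀ hr.le h2 j
        _ = Real.exp (-(j / 2)) := by rw [← Real.exp_nat_mul]; congr 1; ring
    have h4 := exp_neg_le (t := (j : ℝ) / 2) (by positivity)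
    have h5 : Real.sqrt (r * j) / 2 ≤ Real.sqrt ((j : ℝ) / 2) := by
      rw [div_le_iff₀ (by norm_num)]
      calc Real.sqrt (r * j) ≤ Real.sqrt (2 ^ 2 * ((j : ℝ) / 2)) := Real.sqrt_le_sqrt (by nlinarith)
        _ = 2 * Real.sqrt ((j : ℝ) / 2) := by
            rw [Real.sqrt_mul (by norm_num), Real.sqrt_sq (by norm_num)]
        _ = _ := by ring
    have h6 : 1 / (2 * Real.sqrt ((j : ℝ) / 2)) ≤ 1 / Real.sqrt (r * j) :=
      one_div_le_one_div_of_le hs (by linarith)
    have h7 : 1 / Real.sqrt (r * j) ≤ 4 / Real.sqrt (r * j) := by gcongr; norm_num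
    linarith
  rcases Nat.lt_or_ge j (2 * k) with h2k | h2k
  · -- 2 k > j
    rcases Nat.eq_or_lt_of_le hkj with rfl | hkj'
    · -- k = j
      have h1 : bb k k r = (1 - r) ^ k := by simp [bb]
      rw [h1]
      have h2 : (1 - r) ≤ Real.exp (-r) := by
        have := Real.add_one_le_exp (-r)
        linarith
      have h3 : (1 - r) ^ k ≤ Real.exp (-(r * k)) := by
        calc (1 - r) ^ k ≤ Real.exp (-r) ^ k := pow_le_pow_left₀ (by linarith) h2 k
          _ = Real.exp (-(r * k)) := by rw [← Real.exp_nat_mul]; congr 1; ring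
      have h4 := exp_neg_le hrj
      have h5 : 1 / (2 * Real.sqrt (r * k)) ≤ 4 / Real.sqrt (r * k) := by
        rw [div_le_div_iff₀ (by positivity) hs]
        linarith
      linarith
    · set m := j - k with hm
      have hm1 : 1 ≤ m := by omega
      have h2m : 2 * m ≤ j := by omega
      have hw := H189R2.Iid.weight hm1 h2m hr.le (by linarith : r ≤ 1)
      have hbb : bb k j r = (j.choose m : ℝ) * (r ^ m * (1 - r) ^ (j - m)) := by
        unfold bb
        rw [← Nat.choose_symm hkj, ← hm, show j - m = k by omega]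
        ring
      rw [hbb]
      refine hw.trans ?_
      have hm0 : (0 : ℝ) < m := by exact_mod_cast hm1
      have hsm : 0 < Real.sqrt m := Real.sqrt_pos.mpr hm0
      rcases le_or_gt (r * j / 4) m with hc | hc
      · have e1 : Real.exp (-(j * (r - m / j) ^ 2 / (4 * max ((m : ℝ) / j) r))) ≤ 1 := by
          rw [Real.exp_le_one_iff]
          have : 0 ≤ (j : ℝ) * (r - m / j) ^ 2 / (4 * max ((m : ℝ) / j) r) := by positivity
          linarith
        have e2 : Real.sqrt (r * j) / 2 ≤ Real.sqrt m := by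
          rw [div_le_iff₀ (by norm_num)]
          calc Real.sqrt (r * j) ≤ Real.sqrt (2 ^ 2 * m) := Real.sqrt_le_sqrt (by linarith)
            _ = 2 * Real.sqrt m := by
                rw [Real.sqrt_mul (by norm_num), Real.sqrt_sq (by norm_num)]
            _ = _ := by ring
        have e3 : 1 / Real.sqrt m ≤ 4 / Real.sqrt (r * j) := by
          rw [div_le_div_iff₀ hsm hs]
          linarith
        have e4 : 0 ≤ 1 / Real.sqrt (m : ℝ) := by positivity
        nlinarith [Real.exp_pos (-(j * (r - m / j) ^ 2 / (4 * max ((m : ℝ) / j) r)))]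
      · have hmj : (m : ℝ) / j < r / 4 := by
          rw [div_lt_iff₀ hj0]
          linarith
        have hmax : max ((m : ℝ) / j) r = r := max_eq_right (by linarith)
        rw [hmax]
        have e1 : 9 / 64 * (r * j) ≤ j * (r - m / j) ^ 2 / (4 * r) := by
          rw [le_div_iff₀ (by positivity)]
          have e2 : (3 / 4 * r) ^ 2 ≤ (r - m / j) ^ 2 := by
            apply pow_le_pow_left₀ (by positivity)
            linarith
          nlinarith
        have e3 : Real.exp (-(j * (r - m / j) ^ 2 / (4 * r))) ≤ Real.exp (-(9 / 64 * (r * j))) :=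
          Real.exp_le_exp.mpr (by linarith)
        have e4 := exp_neg_le (t := 9 / 64 * (r * j)) (by positivity)
        have e5 : Real.sqrt (9 / 64 * (r * j)) = 3 / 8 * Real.sqrt (r * j) := by
          rw [Real.sqrt_mul (by norm_num), show (9 / 64 : ℝ) = (3 / 8) ^ 2 by norm_num,
            Real.sqrt_sq (by norm_num)]
        rw [e5] at e4
        have e6 : 1 / Real.sqrt (m : ℝ) ≤ 1 := by
          rw [div_le_one hsm]
          rw [Real.one_le_sqrt]
          exact_mod_cast hm1
        have e7 : 1 / (2 * (3 / 8 * Real.sqrt (r * j))) ≤ 4 / Real.sqrt (r * j) := by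
          rw [div_le_div_iff₀ (by positivity) hs]
          linarith
        have e8 := Real.exp_pos (-(j * (r - m / j) ^ 2 / (4 * r)))
        calc 1 / Real.sqrt (m : ℝ) * Real.exp (-(j * (r - m / j) ^ 2 / (4 * r))) ≤
              1 * Real.exp (-(j * (r - m / j) ^ 2 / (4 * r))) := by gcongr
          _ ≤ _ := by linarith
  · -- 2 k ≤ j
    have hw := H189R2.Iid.weight hk h2k (f := 1 - r) (by linarith) (by linarith)
    have hbb : bb k j r = (j.choose k : ℝ) * ((1 - r) ^ k * (1 - (1 - r)) ^ (j - k)) := by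
      unfold bb
      rw [sub_sub_cancel]
    rw [hbb]
    refine hw.trans ?_
    have hk0 : (0 : ℝ) < k := by exact_mod_cast hk
    have hsk : 0 < Real.sqrt k := Real.sqrt_pos.mpr hk0
    rcases le_or_gt ((j : ℝ) / 8) k with hc | hc
    · have e1 : Real.exp (-(j * (1 - r - k / j) ^ 2 / (4 * max ((k : ℝ) / j) (1 - r)))) ≤ 1 := by
        rw [Real.exp_le_one_iff]
        have : 0 ≤ (j : ℝ) * (1 - r - k / j) ^ 2 / (4 * max ((k : ℝ) / j) (1 - r)) := by positivity
        linarith
      have e2 : Real.sqrt (r * j) ≤ 4 * Real.sqrt k := by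
        calc Real.sqrt (r * j) ≤ Real.sqrt (4 ^ 2 * k) := Real.sqrt_le_sqrt (by nlinarith)
          _ = 4 * Real.sqrt k := by
              rw [Real.sqrt_mul (by norm_num), Real.sqrt_sq (by norm_num)]
      have e3 : 1 / Real.sqrt k ≤ 4 / Real.sqrt (r * j) := by
        rw [div_le_div_iff₀ hsk hs]
        linarith
      have e4 : 0 ≤ 1 / Real.sqrt (k : ℝ) := by positivity
      nlinarith [Real.exp_pos (-(j * (1 - r - k / j) ^ 2 / (4 * max ((k : ℝ) / j) (1 - r))))]
    · have hkj8 : (k : ℝ) / j < 1 / 8 := by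
        rw [div_lt_iff₀ hj0]
        linarith
      have hmax : max ((k : ℝ) / j) (1 - r) ≤ 1 := max_le (by linarith) (by linarith)
      have hmax0 : 0 < max ((k : ℝ) / j) (1 - r) := lt_max_of_lt_right (by linarith)
      have e1 : 9 / 256 * (j : ℝ) ≤ j * (1 - r - k / j) ^ 2 / (4 * max ((k : ℝ) / j) (1 - r)) := by
        rw [le_div_iff₀ (by positivity)]
        have e2 : (3 / 8 : ℝ) ^ 2 ≤ (1 - r - k / j) ^ 2 := by
          apply pow_le_pow_left₀ (by norm_num)
          linarith
        nlinarith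
      have e3 : Real.exp (-(j * (1 - r - k / j) ^ 2 / (4 * max ((k : ℝ) / j) (1 - r)))) ≤
          Real.exp (-(9 / 256 * j)) := Real.exp_le_exp.mpr (by linarith)
      have e4 := exp_neg_le (t := 9 / 256 * (j : ℝ)) (by positivity)
      have e5 : Real.sqrt (9 / 256 * (j : ℝ)) = 3 / 16 * Real.sqrt j := by
        rw [Real.sqrt_mul (by norm_num), show (9 / 256 : ℝ) = (3 / 16) ^ 2 by norm_num,
          Real.sqrt_sq (by norm_num)]
      rw [e5] at e4
      have e6 : 1 / Real.sqrt (k : ℝ) ≤ 1 := by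
        rw [div_le_one hsk]
        rw [Real.one_le_sqrt]
        exact_mod_cast hk
      have e7 : 1 / (2 * (3 / 16 * Real.sqrt j)) ≤ 4 / Real.sqrt (r * j) := by
        rw [div_le_div_iff₀ (by positivity) hs]
        nlinarith
      have e8 := Real.exp_pos (-(j * (1 - r - k / j) ^ 2 / (4 * max ((k : ℝ) / j) (1 - r))))
      calc 1 / Real.sqrt (k : ℝ) *
            Real.exp (-(j * (1 - r - k / j) ^ 2 / (4 * max ((k : ℝ) / j) (1 - r)))) ≤
            1 * Real.exp (-(j * (1 - r - k / j) ^ 2 / (4 * max ((k : ℝ) / j) (1 - r)))) := by gcongr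
        _ ≤ _ := by linarith

/-- `bb` is a Bernstein polynomial -/
theorem bb_bern (k j : ℕ) (r : ℝ) : bb k j r = (bernsteinPolynomial ℝ j k).eval (1 - r) := by
  unfold bb bernsteinPolynomial
  simp [mul_assoc]

theorem deriv_bern (j k : ℕ) : derivative (∑ ν ∈ range (k + 1), bernsteinPolynomial ℝ (j + 1) ν) =
    -((j : ℝ[X]) + 1) * bernsteinPolynomial ℝ j k := by
  induction k with
  | zero =>
    rw [zero_add, sum_range_one, bernsteinPolynomial.derivative_zero]
    simp
  | succ k ih =>
    rw [sum_range_succ, derivative_add, ih, bernsteinPolynomial.derivative_succ]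
    simp only [Nat.add_sub_cancel, Nat.cast_add, Nat.cast_one]
    ring

/-- a random rate, uniform in `[0, ρ]` -/
theorem bb_int (k j : ℕ) {ρ : ℝ} (h0 : 0 ≤ ρ) (h1 : ρ ≤ 1) :
    ∫ r in (0 : ℝ)..ρ, bb k j r ≤ 1 / ((j : ℝ) + 1) := by
  set H : ℝ[X] := ∑ ν ∈ range (k + 1), bernsteinPolynomial ℝ (j + 1) ν with hH
  have hj : (0 : ℝ) < (j : ℝ) + 1 := by positivity
  have hd : ∀ r ∈ Set.uIcc (0 : ℝ) ρ, HasDerivAt (fun r => H.eval (1 - r) / ((j : ℝ) + 1))
      (bb k j r) r := by
    intro r _
    have e1 : HasDerivAt (fun r : ℝ => 1 - r) (-1) r := by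
      simpa using (hasDerivAt_id r).const_sub 1
    have e2 := (H.hasDerivAt (1 - r)).comp r e1
    rw [hH, deriv_bern, ← hH] at e2
    have e3 := e2.div_const ((j : ℝ) + 1)
    refine HasDerivAt.congr_deriv (f' := (eval (1 - r) (-((j : ℝ[X]) + 1) *
      bernsteinPolynomial ℝ j k) * -1 / ((j : ℝ) + 1))) e3 ?_
    rw [bb_bern]
    simp only [eval_mul, eval_neg, eval_add, eval_natCast, eval_one]
    field_simp
  have hcont : Continuous (fun r => bb k j r) := by
    unfold bb
    fun_prop
  rw [intervalIntegral.integral_eq_sub_of_hasDerivAt hd (hcont.intervalIntegrable _ _)]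
  have hnn : ∀ x : ℝ, 0 ≤ x → x ≤ 1 → ∀ ν, 0 ≤ (bernsteinPolynomial ℝ (j + 1) ν).eval x := by
    intro x hx0 hx1 ν
    unfold bernsteinPolynomial
    simp only [eval_mul, eval_natCast, eval_pow, eval_X, eval_sub, eval_one]
    have : 0 ≤ 1 - x := by linarith
    positivity
  have hlow : 0 ≤ H.eval (1 - 0) := by
    rw [hH, eval_finsetSum]
    exact sum_nonneg (fun ν _ => hnn _ (by norm_num) (by norm_num) ν)
  have hup : H.eval (1 - ρ) ≤ 1 := by
    have hsum := bernsteinPolynomial.sum ℝ (j + 1)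
    have hsum' := congrArg (fun p : ℝ[X] => p.eval (1 - ρ)) hsum
    simp only [eval_finsetSum, eval_one] at hsum'
    rw [hH, eval_finsetSum]
    refine le_trans ?_ hsum'.le
    rcases Nat.lt_or_ge k (j + 1) with hkj | hkj
    · exact sum_le_sum_of_subset_of_nonneg (range_subset_range.mpr (by omega))
        (fun ν _ _ => hnn _ (by linarith) (by linarith) ν)
    · refine le_of_eq (sum_subset (range_subset_range.mpr (by omega)) ?_).symm
      intro ν _ hν
      rw [mem_range] at hν
      rw [bernsteinPolynomial.eq_zero_of_lt ℝ (by omega)]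
      simp
  rw [← sub_div]
  apply div_le_div_of_nonneg_right _ hj.le
  linarith

end Pool.Agent.Y344.KD
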