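import Pool.Agent.Y344.KD.Sum
import Pool.Agent.Y344.KD.Pert
import Pool.Agent.Y344.KD.Prob

/-! Levels of sub-arrangements of lines. -/

set_option autoImplicit false

namespace Pool.Agent.Y344.KD

open Finset MeasureTheory Filter Pool.Agent.H189R2.Lev Pool.Agent.H189R2.Iid
open scoped Topology

open Pool.Agent.Results.MP_a08d0a_co.SmoothedLevel (Simple crossings psi psi_le)

variable {n : ℕ}

/-- restriction to the lines of a set `R`, listed in increasing order of their indices -/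
def sub (f : Fin n → ℝ) (R : Finset (Fin n)) : Fin R.card → ℝ := fun i => f (R.orderEmbOfFin rfl i)

open Classical in
/-- the points below the line of the pair `q` -/
noncomputable def lowSet (P : Fin n → ℝ × ℝ) (q : Fin n × Fin n) : Finset (Fin n) :=
  univ.filter (fun l => P l ∈ low (P q.1) (P q.2))

theorem lev_eq (P : Fin n → ℝ × ℝ) (q : Fin n × Fin n) : lev P q = (lowSet P q).card := rfl

theorem mem_lowD {P : Fin n → ℝ × ℝ} {q : Fin n × Fin n} {D : Finset (Fin n)} {l : Fin n} :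
    l ∈ lowSet P q \ D ↔ P l ∈ low (P q.1) (P q.2) ∧ l ∉ D := by
  classical
  rw [Finset.mem_sdiff]
  simp [lowSet]

theorem simple_sub {a B : Fin n → ℝ} (hS : Simple a B) (R : Finset (Fin n)) :
    Simple (sub a R) (sub B R) := by
  have hinj : Function.Injective (R.orderEmbOfFin rfl) := (R.orderEmbOfFin rfl).injective
  refine ⟨fun i j hij h => hS.1 _ _ (hinj.ne hij) h, fun i j l hij hil hjl h => ?_⟩
  exact hS.2 _ _ _ (hinj.ne hij) (hinj.ne hil) (hinj.ne hjl) h

/-- the number of pairs with exactly `k` surviving points below -/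
noncomputable def cnt (P : Fin n → ℝ × ℝ) (k : ℕ) (D : Finset (Fin n)) : ℕ :=
  ((T P).filter (fun q => (lowSet P q \ D).card = k)).card

/-- crossings of a sub-arrangement -/
theorem cross_sub {a B : Fin n → ℝ} {P : Fin n → ℝ × ℝ}
    (hP : ∀ i j, a j < a i → (P j).1 < (P i).1 ∧ ∀ l, (P l ∈ low (P i) (P j) ↔
      ht a B l (cr a B i j) < ht a B i (cr a B i j))) (D : Finset (Fin n)) (k : ℕ) :
    (crossings (sub a Dᶜ) (sub B Dᶜ) k).ncard ≤ cnt P k D := by
  classical
  unfold cnt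
  rw [← Set.ncard_coe_finset ((T P).filter (fun q => (lowSet P q \ D).card = k))]
  set e := Dᶜ.orderEmbOfFin rfl with he
  have hinj : Function.Injective e := e.injective
  have hmem : ∀ i, e i ∈ Dᶜ := fun i => Finset.orderEmbOfFin_mem _ _ i
  have hsurj : ∀ l ∈ Dᶜ, ∃ i, e i = l := by
    intro l hl
    have := Finset.range_orderEmbOfFin Dᶜ (rfl : Dᶜ.card = Dᶜ.card)
    have h : l ∈ Set.range e := by rw [he, this]; exact_mod_cast hl
    exact h
  have key : ∀ i j, a (e j) < a (e i) →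
      {l | ht (sub a Dᶜ) (sub B Dᶜ) l (cr (sub a Dᶜ) (sub B Dᶜ) i j) <
        ht (sub a Dᶜ) (sub B Dᶜ) i (cr (sub a Dᶜ) (sub B Dᶜ) i j)}.ncard =
      (lowSet P (e i, e j) \ D).card := by
    intro i j hij
    rw [← Set.ncard_coe_finset (lowSet P (e i, e j) \ D), ← Set.ncard_image_of_injective _ hinj]
    congr 1
    ext l
    rw [Finset.mem_coe, mem_lowD, Set.mem_image]
    constructor
    · rintro ⟨l', h1, rfl⟩
      refine ⟨((hP (e i) (e j) hij).2 (e l')).mpr h1, ?_⟩
      have := hmem l'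
      rw [mem_compl] at this
      exact this
    · rintro ⟨h1, h2⟩
      obtain ⟨l', rfl⟩ := hsurj l (mem_compl.mpr h2)
      exact ⟨l', ((hP (e i) (e j) hij).2 (e l')).mp h1, rfl⟩
  apply Set.ncard_le_ncard_of_injOn (fun q : Fin Dᶜ.card × Fin Dᶜ.card =>
    if a (e q.2) < a (e q.1) then (e q.1, e q.2) else (e q.2, e q.1))
  · rintro ⟨i, j⟩ ⟨h1, h2, h3⟩
    simp only at h1 h2 h3
    have h2' : a (e i) ≠ a (e j) := h2
    rw [mem_coe, mem_filter, mem_T]
    simp only
    by_cases h : a (e j) < a (e i)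
    · rw [if_pos h]
      exact ⟨(hP _ _ h).1, by rw [← key i j h]; exact h3⟩
    · rw [if_neg h]
      have h' : a (e i) < a (e j) := lt_of_le_of_ne (not_lt.mp h) h2'
      refine ⟨(hP _ _ h').1, ?_⟩
      rw [← key j i h']
      have h4 := ht_cr (a := sub a Dᶜ) (B := sub B Dᶜ) h2
      rw [cr_symm, h4]
      exact h3
  · rintro ⟨i, j⟩ ⟨h1, h2, _⟩ ⟨i', j'⟩ ⟨h1', h2', _⟩ heq
    simp only at h1 h2 h1' h2' heq
    split_ifs at heq with h h' h'
    · rw [Prod.mk.injEq] at heq
      rw [hinj heq.1, hinj heq.2]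
    · rw [Prod.mk.injEq] at heq
      rw [hinj heq.1, hinj heq.2] at h1
      exact absurd h1 (lt_asymm h1')
    · rw [Prod.mk.injEq] at heq
      rw [hinj heq.1, hinj heq.2] at h1
      exact absurd h1 (lt_asymm h1')
    · rw [Prod.mk.injEq] at heq
      rw [hinj heq.1, hinj heq.2]

/-- the expected number of pairs with exactly `k` surviving points below -/
theorem exp_cnt (P : Fin n → ℝ × ℝ) (k : ℕ) (r : ℝ) :
    ∑ D : Finset (Fin n), wt r D * cnt P k D = ∑ q ∈ T P, bb k (lev P q) r := by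
  have h1 : ∀ D : Finset (Fin n), wt r D * (cnt P k D : ℝ) =
      ∑ q ∈ T P, (if (lowSet P q \ D).card = k then wt r D else 0) := by
    intro D
    unfold cnt
    rw [← sum_filter, sum_const, nsmul_eq_mul, mul_comm]
  rw [sum_congr rfl (fun D _ => h1 D), sum_comm]
  apply sum_congr rfl
  intro q _
  rw [marg, lev_eq]

/-- fixed deletion rate -/
theorem fixed_rate {P : Fin n → ℝ × ℝ} (hP : GP P) (k : ℕ) {r : ℝ} (hr0 : 0 < r)
    (hr : r ≤ 1 / 2) :
    ∑ D : Finset (Fin n), wt r D * cnt P k D ≤ 1000 * n * (((k : ℝ) + 1) / r) ^ (1 / 6 : ℝ) := by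
  rw [exp_cnt]
  have hk0 : (0 : ℝ) ≤ k := Nat.cast_nonneg k
  have hk1 : (0 : ℝ) < (k : ℝ) + 1 := by linarith
  have hrk : 0 < r * ((k : ℝ) + 1) := by positivity
  have hs : 0 < Real.sqrt (r * ((k : ℝ) + 1)) := Real.sqrt_pos.mpr hrk
  set M' : ℝ := 6 / Real.sqrt (r * ((k : ℝ) + 1)) with hM'
  have hM'0 : 0 < M' := by positivity
  set M : ℝ := min 1 M' with hM
  have hM0 : 0 < M := lt_min one_pos hM'0
  have hbM : ∀ j, bb k j r ≤ M := by
    intro j
    apply le_min (bb_le_one k j hr0.le (by linarith))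
    rcases lt_or_ge j k with hjk | hjk
    · rw [bb_zero hjk]; exact hM'0.le
    rcases Nat.eq_zero_or_pos j with hj0 | hj0
    · have hk00 : k = 0 := by omega
      refine (bb_le_one k j hr0.le (by linarith)).trans ?_
      rw [hM', le_div_iff₀ hs, one_mul, hk00]
      calc Real.sqrt (r * (((0 : ℕ) : ℝ) + 1)) ≤ Real.sqrt (6 ^ 2) := by
            apply Real.sqrt_le_sqrt
            push_cast
            linarith
        _ = 6 := Real.sqrt_sq (by norm_num)
    · refine (bb_sup hr0 hr hj0).trans ?_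
      have hjr : (0 : ℝ) < j := by exact_mod_cast hj0
      have hs' : 0 < Real.sqrt (r * j) := Real.sqrt_pos.mpr (by positivity)
      rw [hM', div_le_div_iff₀ hs' hs]
      have h2 : (k : ℝ) + 1 ≤ 2 * j := by
        have : k + 1 ≤ 2 * j := by omega
        exact_mod_cast this
      have h3 : Real.sqrt (r * ((k : ℝ) + 1)) ≤ 3 / 2 * Real.sqrt (r * j) := by
        calc Real.sqrt (r * ((k : ℝ) + 1)) ≤ Real.sqrt ((3 / 2) ^ 2 * (r * j)) := by
              apply Real.sqrt_le_sqrt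
              nlinarith
          _ = 3 / 2 * Real.sqrt (r * j) := by
              rw [Real.sqrt_mul (by norm_num), Real.sqrt_sq (by norm_num)]
      linarith
  have h := sum_total hP (w := fun j => bb k j r) (M := M) (k := k) hM0 (min_le_left _ _)
    (fun j => bb_nonneg k j hr0.le (by linarith)) hbM (fun J => bb_sum k J hr0.le hr)
    (fun j hj => bb_dec hr0.le hr hj)
  refine h.trans ?_
  have hM3 : M ^ (1 / 3 : ℝ) ≤ 2 * (r * ((k : ℝ) + 1)) ^ (-(1 / 6) : ℝ) := by
    calc M ^ (1 / 3 : ℝ) ≤ M' ^ (1 / 3 : ℝ) :=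
          Real.rpow_le_rpow hM0.le (min_le_right _ _) (by norm_num)
      _ = 6 ^ (1 / 3 : ℝ) * (r * ((k : ℝ) + 1)) ^ (-(1 / 6) : ℝ) := by
          rw [hM', Real.sqrt_eq_rpow, Real.div_rpow (by norm_num) (by positivity),
            ← Real.rpow_mul hrk.le, Real.rpow_neg hrk.le, div_eq_mul_inv]
          norm_num
      _ ≤ _ := by
          apply mul_le_mul_of_nonneg_right _ (by positivity)
          have : ((6 : ℝ) ^ (1 / 3 : ℝ)) ^ 3 ≤ (2 : ℝ) ^ 3 := by
            rw [← Real.rpow_natCast, ← Real.rpow_mul (by norm_num)]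
            norm_num
          exact le_of_pow_le_pow_left₀ (by norm_num) (by norm_num) this
  have he : ((k : ℝ) + 1) ^ (1 / 3 : ℝ) * (r * ((k : ℝ) + 1)) ^ (-(1 / 6) : ℝ) =
      (((k : ℝ) + 1) / r) ^ (1 / 6 : ℝ) := by
    rw [Real.mul_rpow hr0.le hk1.le, Real.div_rpow hk1.le hr0.le, Real.rpow_neg hr0.le]
    have : ((k : ℝ) + 1) ^ (1 / 3 : ℝ) * ((k : ℝ) + 1) ^ (-(1 / 6) : ℝ) =
        ((k : ℝ) + 1) ^ (1 / 6 : ℝ) := by
      rw [← Real.rpow_add hk1]
      norm_num
    rw [← this]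
    ring
  calc 500 * n * (((k : ℝ) + 1) ^ (1 / 3 : ℝ) * M ^ (1 / 3 : ℝ)) ≤
        500 * n * (((k : ℝ) + 1) ^ (1 / 3 : ℝ) * (2 * (r * ((k : ℝ) + 1)) ^ (-(1 / 6) : ℝ))) := by
        gcongr
    _ = 1000 * n * (((k : ℝ) + 1) ^ (1 / 3 : ℝ) * (r * ((k : ℝ) + 1)) ^ (-(1 / 6) : ℝ)) := by ring
    _ = _ := by rw [he]

/-- random deletion rate: the mean over the rates in `[0, ρ]` -/
theorem random_rate {P : Fin n → ℝ × ℝ} (hP : GP P) (k : ℕ) {ρ : ℝ} (hρ0 : 0 < ρ)
    (hρ : ρ ≤ 1 / 2) :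
    ∫ r in (0 : ℝ)..ρ, ∑ q ∈ T P, bb k (lev P q) r ≤
      ρ * (500 * n * (min ((k : ℝ) + 1) (1 / ρ)) ^ (1 / 3 : ℝ)) := by
  have hk0 : (0 : ℝ) ≤ k := Nat.cast_nonneg k
  have hk1 : (0 : ℝ) < (k : ℝ) + 1 := by linarith
  have hcont : ∀ j, Continuous (fun r => bb k j r) := by
    intro j
    unfold bb
    fun_prop
  have hint : ∀ j, IntervalIntegrable (fun r => bb k j r) volume 0 ρ :=
    fun j => (hcont j).intervalIntegrable _ _
  set w : ℕ → ℝ := fun j => (∫ r in (0 : ℝ)..ρ, bb k j r) / ρ with hw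
  have hw0 : ∀ j, 0 ≤ w j := by
    intro j
    apply div_nonneg _ hρ0.le
    apply intervalIntegral.integral_nonneg hρ0.le
    intro r hr
    exact bb_nonneg k j hr.1 (by linarith [hr.2])
  set M : ℝ := min 1 (1 / (ρ * ((k : ℝ) + 1))) with hM
  have hM0 : 0 < M := lt_min one_pos (by positivity)
  have hwM : ∀ j, w j ≤ M := by
    intro j
    apply le_min
    · rw [hw]
      simp only
      rw [div_le_one hρ0]
      calc ∫ r in (0 : ℝ)..ρ, bb k j r ≤ ∫ r in (0 : ℝ)..ρ, (1 : ℝ) := by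
            apply intervalIntegral.integral_mono_on hρ0.le (hint j) (by simp)
            intro r hr
            exact bb_le_one k j hr.1 (by linarith [hr.2])
        _ = ρ := by simp
    · rcases lt_or_ge j k with hjk | hjk
      · have : w j = 0 := by
          rw [hw]
          simp only
          rw [intervalIntegral.integral_congr (g := fun _ => (0 : ℝ))
            (fun r _ => bb_zero hjk r)]
          simp
        rw [this]
        positivity
      · rw [hw]
        simp only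
        have h1 := bb_int k j hρ0.le (by linarith : ρ ≤ 1)
        have h2 : 1 / ((j : ℝ) + 1) ≤ 1 / ((k : ℝ) + 1) := by
          apply one_div_le_one_div_of_le hk1
          have : (k : ℝ) ≤ j := by exact_mod_cast hjk
          linarith
        rw [div_le_div_iff₀ hρ0 (by positivity), one_mul]
        calc (∫ r in (0 : ℝ)..ρ, bb k j r) * (ρ * ((k : ℝ) + 1)) ≤
              1 / ((k : ℝ) + 1) * (ρ * ((k : ℝ) + 1)) := by gcongr; linarith
          _ = ρ := by field_simp
  have hsum : ∀ J, ∑ j ∈ range J, w j ≤ 2 := by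
    intro J
    rw [hw, ← sum_div, div_le_iff₀ hρ0, ← intervalIntegral.integral_finsetSum (fun j _ => hint j)]
    calc ∫ r in (0 : ℝ)..ρ, ∑ j ∈ range J, bb k j r ≤ ∫ r in (0 : ℝ)..ρ, (2 : ℝ) := by
          apply intervalIntegral.integral_mono_on hρ0.le _ (by simp)
          · intro r hr
            exact bb_sum k J hr.1 (by linarith [hr.2])
          · apply Continuous.intervalIntegrable
            exact continuous_finsetSum _ (fun j _ => hcont j)
      _ = 2 * ρ := by simp; ring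
  have hdec : ∀ j, 4 * (k + 1) ≤ j → w (j + 1) ≤ 2 / 3 * w j := by
    intro j hj
    rw [hw]
    simp only
    rw [← mul_div_assoc, div_le_div_iff_of_pos_right hρ0, ← intervalIntegral.integral_const_mul]
    apply intervalIntegral.integral_mono_on hρ0.le (hint _) ((hint j).const_mul _)
    intro r hr
    exact bb_dec hr.1 (by linarith [hr.2]) hj
  have h := sum_total hP (w := w) (M := M) (k := k) hM0 (min_le_left _ _) hw0 hwM hsum hdec
  rw [intervalIntegral.integral_finsetSum (fun q _ => hint _)]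
  have e1 : ∑ q ∈ T P, ∫ r in (0 : ℝ)..ρ, bb k (lev P q) r = ρ * ∑ q ∈ T P, w (lev P q) := by
    rw [hw, mul_sum]
    apply sum_congr rfl
    intro q _
    simp only
    rw [mul_div_cancel₀ _ hρ0.ne']
  rw [e1]
  apply mul_le_mul_of_nonneg_left _ hρ0.le
  refine h.trans (le_of_eq ?_)
  have e2 : ((k : ℝ) + 1) ^ (1 / 3 : ℝ) * M ^ (1 / 3 : ℝ) =
      (min ((k : ℝ) + 1) (1 / ρ)) ^ (1 / 3 : ℝ) := by
    rw [← Real.mul_rpow hk1.le hM0.le]
    congr 1
    rw [hM, mul_min_of_nonneg _ _ hk1.le, mul_one]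
    congr 1
    field_simp
  rw [e2]

end Pool.Agent.Y344.KD
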