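import Pool.Agent.Y344.KD.Bis

/-! Bisectors of random subsets. -/

set_option autoImplicit false

namespace Pool.Agent.Y344.KD

open Finset Polynomial

theorem conv_choose (N : ℕ) : ∀ a b : ℕ, ∑ j ∈ range (N + 1), j.choose a * (N - j).choose b =
    (N + 1).choose (a + b + 1) := by
  induction N with
  | zero =>
    intro a b
    rw [zero_add, sum_range_one, Nat.sub_zero]
    rcases a with _ | a
    · rcases b with _ | b
      · simp
      · rw [Nat.choose_eq_zero_of_lt (by omega : 1 < 0 + (b + 1) + 1)]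
        simp
    · rw [Nat.choose_eq_zero_of_lt (by omega : 1 < a + 1 + b + 1)]
      simp
  | succ N ih =>
    intro a b
    rw [sum_range_succ']
    have e1 : ∀ j ∈ range (N + 1), (j + 1).choose a * (N + 1 - (j + 1)).choose b =
        (j + 1).choose a * (N - j).choose b := by
      intro j _
      rw [Nat.add_sub_add_right]
    rw [sum_congr rfl e1]
    rcases a with _ | a
    · have e2 : ∑ j ∈ range (N + 1), (j + 1).choose 0 * (N - j).choose b =
          ∑ j ∈ range (N + 1), j.choose 0 * (N - j).choose b := by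
        apply sum_congr rfl
        intro j _
        simp
      rw [e2, ih 0 b]
      simp only [Nat.choose_zero_right, one_mul, zero_add, Nat.sub_zero]
      rw [Nat.choose_succ_succ (N + 1) b]
      ring
    · have e2 : ∀ j ∈ range (N + 1), (j + 1).choose (a + 1) * (N - j).choose b =
          j.choose a * (N - j).choose b + j.choose (a + 1) * (N - j).choose b := by
        intro j _
        rw [Nat.choose_succ_succ]
        ring
      rw [sum_congr rfl e2, sum_add_distrib, ih a b, ih (a + 1) b]
      simp only [Nat.choose_zero_succ, zero_mul, add_zero]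
      rw [show a + 1 + b + 1 = (a + b + 1) + 1 by ring, Nat.choose_succ_succ (N + 1) (a + b + 1)]

/-- probability that `j` and `N - j` elements leave the same number of survivors -/
noncomputable def ww (N : ℕ) (r : ℝ) (j : ℕ) : ℝ :=
  ∑ m ∈ range (N + 1), bb m j r * bb m (N - j) r

theorem ww_nonneg (N j : ℕ) {r : ℝ} (h0 : 0 ≤ r) (h1 : r ≤ 1) : 0 ≤ ww N r j :=
  sum_nonneg (fun m _ => mul_nonneg (bb_nonneg _ _ h0 h1) (bb_nonneg _ _ h0 h1))

theorem bb_row (j M : ℕ) {r : ℝ} (h0 : 0 ≤ r) (h1 : r ≤ 1) : ∑ m ∈ range M, bb m j r ≤ 1 := by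
  have h2 : ∑ m ∈ range (j + 1), bb m j r = 1 := by
    have := add_pow (1 - r) r j
    rw [sub_add_cancel, one_pow] at this
    rw [this]
    apply sum_congr rfl
    intro m _
    unfold bb
    ring
  calc ∑ m ∈ range M, bb m j r ≤ ∑ m ∈ range (max M (j + 1)), bb m j r :=
        sum_le_sum_of_subset_of_nonneg (range_subset_range.mpr (le_max_left _ _))
          (fun m _ _ => bb_nonneg m j h0 h1)
    _ = ∑ m ∈ range (j + 1), bb m j r := by
        symm
        apply sum_subset (range_subset_range.mpr (le_max_right _ _))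
        intro m _ hm
        rw [mem_range] at hm
        exact bb_zero (by omega) r
    _ = 1 := h2

theorem ww_sum (N : ℕ) {r : ℝ} (h0 : 0 ≤ r) (h1 : r ≤ 1 / 2) :
    ∑ j ∈ range (N + 1), ww N r j ≤ 2 := by
  unfold ww
  rw [sum_comm]
  have hr : 0 < 1 - r := by linarith
  have h2 : ∀ m ∈ range (N + 1), ∑ j ∈ range (N + 1), bb m j r * bb m (N - j) r ≤
      (1 / (1 - r)) * bb (2 * m + 1) (N + 1) r := by
    intro m _
    have e1 : ∀ j ∈ range (N + 1), bb m j r * bb m (N - j) r =
        ((j.choose m * (N - j).choose m : ℕ) : ℝ) * ((1 - r) ^ (2 * m) * r ^ (N - 2 * m)) := by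
      intro j hj
      rw [mem_range] at hj
      rcases lt_or_ge j m with h | h
      · rw [bb_zero h, Nat.choose_eq_zero_of_lt h]
        simp
      rcases lt_or_ge (N - j) m with h' | h'
      · rw [bb_zero h', Nat.choose_eq_zero_of_lt h']
        simp
      unfold bb
      rw [show N - 2 * m = (j - m) + (N - j - m) by omega, pow_add, two_mul, pow_add]
      push_cast
      ring
    rw [sum_congr rfl e1, ← sum_mul, ← Nat.cast_sum, conv_choose]
    unfold bb
    rw [show m + m + 1 = 2 * m + 1 by ring, show N + 1 - (2 * m + 1) = N - 2 * m by omega]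
    have e2 : 1 / (1 - r) * (((N + 1).choose (2 * m + 1) : ℝ) *
        ((1 - r) ^ (2 * m + 1) * r ^ (N - 2 * m))) =
        ((N + 1).choose (2 * m + 1) : ℝ) * ((1 - r) ^ (2 * m) * r ^ (N - 2 * m)) := by
      rw [pow_succ]
      field_simp
    rw [e2]
  calc _ ≤ ∑ m ∈ range (N + 1), (1 / (1 - r)) * bb (2 * m + 1) (N + 1) r := sum_le_sum h2
    _ = (1 / (1 - r)) * ∑ m ∈ range (N + 1), bb (2 * m + 1) (N + 1) r := by rw [mul_sum]
    _ ≤ (1 / (1 - r)) * 1 := by
        apply mul_le_mul_of_nonneg_left _ (by positivity)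
        calc ∑ m ∈ range (N + 1), bb (2 * m + 1) (N + 1) r =
              ∑ x ∈ (range (N + 1)).image (fun m => 2 * m + 1), bb x (N + 1) r := by
              rw [sum_image]
              intro x _ y _ h
              simp only at h
              omega
          _ ≤ ∑ x ∈ range (2 * N + 2), bb x (N + 1) r := by
              apply sum_le_sum_of_subset_of_nonneg
              · intro x hx
                rw [mem_image] at hx
                obtain ⟨m, hm, rfl⟩ := hx
                rw [mem_range] at hm ⊢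
                omega
              · intro x _ _
                exact bb_nonneg _ _ h0 (by linarith)
          _ ≤ 1 := bb_row _ _ h0 (by linarith)
    _ ≤ 2 := by
        rw [mul_one, div_le_iff₀ hr]
        linarith

theorem ww_le (N j : ℕ) (hj : j ≤ N) {r : ℝ} (h0 : 0 < r) (h1 : r ≤ 1 / 2) (hN : 1 ≤ N) :
    ww N r j ≤ 4 / Real.sqrt (r * (N / 2)) := by
  have hN0 : (0 : ℝ) < N := by exact_mod_cast hN
  have hs : 0 < Real.sqrt (r * (N / 2)) := Real.sqrt_pos.mpr (by positivity)
  have key : ∀ i : ℕ, N ≤ 2 * i → 1 ≤ i → ∀ m, bb m i r ≤ 4 / Real.sqrt (r * (N / 2)) := by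
    intro i hi hi1 m
    refine (bb_sup h0 h1 hi1).trans ?_
    apply div_le_div_of_nonneg_left (by norm_num) hs
    apply Real.sqrt_le_sqrt
    apply mul_le_mul_of_nonneg_left _ h0.le
    have : (N : ℝ) ≤ 2 * i := by exact_mod_cast hi
    linarith
  have hc : 0 ≤ 4 / Real.sqrt (r * (N / 2)) := by positivity
  unfold ww
  rcases le_total N (2 * j) with h | h
  · calc ∑ m ∈ range (N + 1), bb m j r * bb m (N - j) r ≤
          ∑ m ∈ range (N + 1), 4 / Real.sqrt (r * (N / 2)) * bb m (N - j) r := by
          apply sum_le_sum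
          intro m _
          exact mul_le_mul_of_nonneg_right (key j h (by omega) m)
            (bb_nonneg _ _ h0.le (by linarith))
      _ = 4 / Real.sqrt (r * (N / 2)) * ∑ m ∈ range (N + 1), bb m (N - j) r := by rw [mul_sum]
      _ ≤ 4 / Real.sqrt (r * (N / 2)) * 1 :=
          mul_le_mul_of_nonneg_left (bb_row _ _ h0.le (by linarith)) hc
      _ = _ := mul_one _
  · calc ∑ m ∈ range (N + 1), bb m j r * bb m (N - j) r ≤
          ∑ m ∈ range (N + 1), bb m j r * (4 / Real.sqrt (r * (N / 2))) := by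
          apply sum_le_sum
          intro m _
          exact mul_le_mul_of_nonneg_left (key (N - j) (by omega) (by omega) m)
            (bb_nonneg _ _ h0.le (by linarith))
      _ = (∑ m ∈ range (N + 1), bb m j r) * (4 / Real.sqrt (r * (N / 2))) := by rw [sum_mul]
      _ ≤ 1 * (4 / Real.sqrt (r * (N / 2))) :=
          mul_le_mul_of_nonneg_right (bb_row _ _ h0.le (by linarith)) hc
      _ = _ := one_mul _

theorem coeff_pow (s k : ℕ) (r : ℝ) : ((C (1 - r) * X + C r : ℝ[X]) ^ s).coeff k = bb k s r := by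
  rw [add_pow, finsetSum_coeff]
  have h6 : ∀ m ∈ range (s + 1), (((C (1 - r) * X) ^ m * C r ^ (s - m) *
      ((s.choose m : ℕ) : ℝ[X])) : ℝ[X]).coeff k =
      if k = m then (s.choose m : ℝ) * ((1 - r) ^ m * r ^ (s - m)) else 0 := by
    intro m _
    have : ((C (1 - r) * X) ^ m * C r ^ (s - m) * ((s.choose m : ℕ) : ℝ[X]) : ℝ[X]) =
        C ((s.choose m : ℝ) * ((1 - r) ^ m * r ^ (s - m))) * X ^ m := by
      rw [mul_pow, C_mul, C_mul, C_pow, C_pow]
      simp only [map_natCast]
      ring
    rw [this, coeff_C_mul_X_pow]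
  rw [sum_congr rfl h6]
  by_cases hk : k ∈ range (s + 1)
  · rw [sum_ite_eq, if_pos hk]
    rfl
  · rw [sum_ite_eq, if_neg hk, bb_zero (by rw [mem_range] at hk; omega)]

theorem coeff_pow' (s k : ℕ) (r : ℝ) (hk : k ≤ s) :
    ((C r * X + C (1 - r) : ℝ[X]) ^ s).coeff k = bb (s - k) s r := by
  have h := coeff_pow s k (1 - r)
  rw [sub_sub_cancel] at h
  rw [h]
  unfold bb
  rw [sub_sub_cancel, Nat.choose_symm hk, show s - (s - k) = k by omega]
  ring

/-- equal numbers of survivors in two disjoint sets -/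
theorem marg2 {n : ℕ} (S U : Finset (Fin n)) (hd : Disjoint S U) (r : ℝ) :
    ∑ D : Finset (Fin n), (if (S \ D).card = (U \ D).card then wt r D else 0) =
      ∑ m ∈ range (U.card + 1), bb m S.card r * bb m U.card r := by
  have h1 := Fintype.prod_add (fun l : Fin n => (C r * (if l ∈ U then X else 1) : ℝ[X]))
    (fun l => C (1 - r) * (if l ∈ S then X else 1))
  have h2 : ∏ l : Fin n, ((C r * (if l ∈ U then X else 1) : ℝ[X]) +
      C (1 - r) * (if l ∈ S then X else 1)) =
      (C (1 - r) * X + C r) ^ S.card * (C r * X + C (1 - r)) ^ U.card := by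
    have : ∀ l : Fin n, ((C r * (if l ∈ U then X else 1) : ℝ[X]) +
      C (1 - r) * (if l ∈ S then X else 1)) =
        (if l ∈ S then (C (1 - r) * X + C r) else 1) * (if l ∈ U then (C r * X + C (1 - r)) else 1)
        := by
      intro l
      by_cases hS : l ∈ S
      · have hU : l ∉ U := disjoint_left.mp hd hS
        simp only [hS, hU, if_true, if_false]
        ring
      · by_cases hU : l ∈ U
        · simp only [hS, hU, if_true, if_false]
          ring
        · simp only [hS, hU, if_false, mul_one]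
          rw [← C_add]
          norm_num
    rw [prod_congr rfl (fun l _ => this l), prod_mul_distrib]
    congr 1
    · rw [prod_ite, prod_const, prod_const_one, mul_one]
      congr 1
      congr 1
      ext l
      simp
    · rw [prod_ite, prod_const, prod_const_one, mul_one]
      congr 1
      congr 1
      ext l
      simp
  have h3 : ∀ D : Finset (Fin n), (∏ l ∈ D, (C r * (if l ∈ U then X else 1) : ℝ[X])) *
      ∏ l ∈ Dᶜ, (C (1 - r) * (if l ∈ S then X else 1)) =
      C (wt r D) * X ^ ((U ∩ D).card + (S \ D).card) := by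
    intro D
    rw [prod_mul_distrib, prod_mul_distrib, prod_const, prod_const, prod_ite, prod_ite,
      prod_const, prod_const_one, mul_one, prod_const, prod_const_one, mul_one]
    have e2 : Dᶜ.filter (fun l => l ∈ S) = S \ D := by
      ext l
      simp only [mem_filter, mem_compl, mem_sdiff]
      tauto
    have e3 : D.filter (fun l => l ∈ U) = U ∩ D := by
      ext l
      simp only [mem_filter, mem_inter]
      tauto
    rw [e2, e3, card_compl, Fintype.card_fin]
    unfold wt
    rw [C_mul, C_pow, C_pow, pow_add]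
    ring
  rw [h2] at h1
  simp only [h3] at h1
  have h4 := congrArg (fun p : ℝ[X] => p.coeff U.card) h1
  simp only [finsetSum_coeff, coeff_C_mul_X_pow] at h4
  have h5 : ∀ D : Finset (Fin n), (if (S \ D).card = (U \ D).card then wt r D else 0) =
      if U.card = (U ∩ D).card + (S \ D).card then wt r D else 0 := by
    intro D
    have h6 := card_sdiff_add_card_inter U D
    by_cases h : (S \ D).card = (U \ D).card
    · rw [if_pos h, if_pos (by omega)]
    · rw [if_neg h, if_neg (by omega)]
  rw [sum_congr rfl (fun D _ => h5 D), ← h4, coeff_mul,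
    Finset.Nat.sum_antidiagonal_eq_sum_range_succ_mk]
  apply sum_congr rfl
  intro m hm
  rw [mem_range] at hm
  rw [coeff_pow, coeff_pow' _ _ _ (by omega), show U.card - (U.card - m) = m by omega]

open Pool.Agent.H189R2.Lev Pool.Agent.H189R2.Iid

variable {n : ℕ}

/-- the points above the line of the pair `q` -/
noncomputable def upSet (P : Fin n → ℝ × ℝ) (q : Fin n × Fin n) : Finset (Fin n) :=
  (univ \ lowSet P q) \ {q.1, q.2}

theorem ends_low {P : Fin n → ℝ × ℝ} {q : Fin n × Fin n} (hq : q ∈ T P) :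
    q.1 ∉ lowSet P q ∧ q.2 ∉ lowSet P q ∧ q.1 ≠ q.2 := by
  rw [mem_T] at hq
  refine ⟨?_, ?_, ?_⟩
  · simpa [lowSet] using fst_notMem_low (P q.1) (P q.2)
  · simpa [lowSet] using snd_notMem_low hq
  · intro h
    rw [h] at hq
    exact lt_irrefl _ hq

theorem up_card {P : Fin n → ℝ × ℝ} {q : Fin n × Fin n} (hq : q ∈ T P) (D : Finset (Fin n))
    (h1 : q.1 ∉ D) (h2 : q.2 ∉ D) :
    (lowSet P q \ D).card + (upSet P q \ D).card + 2 = n - D.card := by
  classical
  obtain ⟨a1, a2, a3⟩ := ends_low hq
  have e : (univ \ D) = ((lowSet P q \ D) ∪ (upSet P q \ D)) ∪ {q.1, q.2} := by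
    ext l
    simp only [upSet, mem_sdiff, mem_univ, true_and, mem_union, mem_insert, mem_singleton]
    constructor
    · intro hl
      by_cases hlow : l ∈ lowSet P q
      · exact Or.inl (Or.inl ⟨hlow, hl⟩)
      · by_cases hend : l = q.1 ∨ l = q.2
        · exact Or.inr hend
        · exact Or.inl (Or.inr ⟨⟨hlow, hend⟩, hl⟩)
    · rintro ((⟨_, h⟩ | ⟨_, h⟩) | (rfl | rfl))
      · exact h
      · exact h
      · exact h1
      · exact h2
  have hc : (univ \ D).card = n - D.card := by
    rw [← compl_eq_univ_sdiff, card_compl, Fintype.card_fin]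
  rw [← hc, e, card_union_of_disjoint, card_union_of_disjoint, card_pair a3]
  · rw [disjoint_left]
    intro l hl hl'
    simp only [upSet, mem_sdiff, mem_univ, true_and] at hl hl'
    exact hl'.1.1 hl.1
  · rw [disjoint_left]
    intro l hl hl'
    simp only [upSet, mem_sdiff, mem_univ, true_and, mem_union, mem_insert, mem_singleton]
      at hl hl'
    rcases hl with hl | hl
    · rcases hl' with rfl | rfl
      · exact a1 hl.1
      · exact a2 hl.1
    · exact hl.1.2 hl'

theorem up_card0 {P : Fin n → ℝ × ℝ} {q : Fin n × Fin n} (hq : q ∈ T P) :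
    (lowSet P q).card + (upSet P q).card + 2 = n := by
  have := up_card hq ∅ (by simp) (by simp)
  simpa using this

/-- pairs with equal numbers of survivors below and above -/
noncomputable def bal (P : Fin n → ℝ × ℝ) (D : Finset (Fin n)) : Finset (Fin n × Fin n) :=
  (T P).filter (fun q => (lowSet P q \ D).card = (upSet P q \ D).card)

theorem exp_bal {P : Fin n → ℝ × ℝ} (hP : GP P) {r : ℝ} (h0 : 0 < r) (h1 : r ≤ 1 / 2) :
    ∑ D : Finset (Fin n), wt r D * (bal P D).card ≤
      240 * (n : ℝ) ^ (7 / 6 : ℝ) * r ^ (-(1 / 6) : ℝ) := by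
  classical
  rcases (T P).eq_empty_or_nonempty with hT | ⟨q0, hq0⟩
  · have : ∀ D : Finset (Fin n), wt r D * ((bal P D).card : ℝ) = 0 := by
      intro D
      unfold bal
      rw [hT]
      simp
    rw [sum_congr rfl (fun D _ => this D), sum_const_zero]
    positivity
  have hn2 : 2 ≤ n := by
    have := up_card0 hq0
    omega
  have hr1 : r ≤ 1 := by linarith
  have e1 : ∑ D : Finset (Fin n), wt r D * ((bal P D).card : ℝ) =
      ∑ q ∈ T P, ww (n - 2) r (lev P q) := by
    have h2 : ∀ D : Finset (Fin n), wt r D * ((bal P D).card : ℝ) =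
        ∑ q ∈ T P, (if (lowSet P q \ D).card = (upSet P q \ D).card then wt r D else 0) := by
      intro D
      unfold bal
      rw [← sum_filter, sum_const, nsmul_eq_mul, mul_comm]
    rw [sum_congr rfl (fun D _ => h2 D), sum_comm]
    apply sum_congr rfl
    intro q hq
    have hc := up_card0 hq
    rw [marg2 _ _ (by
      rw [disjoint_left]
      intro l hl hl'
      simp only [upSet, mem_sdiff, mem_univ, true_and] at hl'
      exact hl'.1 hl), lev_eq]
    unfold ww
    have hu : (upSet P q).card = n - 2 - (lowSet P q).card := by omega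
    rw [hu]
    apply sum_subset (range_subset_range.mpr (by omega))
    intro m _ hm
    rw [mem_range] at hm
    rw [bb_zero (j := n - 2 - (lowSet P q).card) (by omega), mul_zero]
  rw [e1]
  have hall : EW P (range (n - 1)) = T P := by
    unfold EW
    rw [filter_true_of_mem]
    intro q hq
    have hc := up_card0 hq
    rw [mem_range, lev_eq]
    omega
  rw [← hall]
  have hn1 : n - 2 + 1 = n - 1 := by omega
  have hn0 : (0 : ℝ) < n := by
    have : 0 < n := by omega
    exact_mod_cast this
  have hrn : 0 < r * n := by positivity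
  have hs : 0 < Real.sqrt (r * n) := Real.sqrt_pos.mpr hrn
  have hwM : ∀ j < n - 1, ww (n - 2) r j ≤ 12 / Real.sqrt (r * n) := by
    intro j hj
    rcases Nat.lt_or_ge n 4 with h4 | h4
    · have h5 : ww (n - 2) r j ≤ 1 := by
        unfold ww
        calc ∑ m ∈ range (n - 2 + 1), bb m j r * bb m (n - 2 - j) r ≤
              ∑ m ∈ range (n - 2 + 1), bb m j r * 1 := by
              apply sum_le_sum
              intro m _
              exact mul_le_mul_of_nonneg_left (bb_le_one _ _ h0.le hr1) (bb_nonneg _ _ h0.le hr1)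
          _ ≤ 1 := by
              simp only [mul_one]
              exact bb_row _ _ h0.le hr1
      refine h5.trans ?_
      rw [le_div_iff₀ hs, one_mul]
      have h6 : (n : ℝ) ≤ 4 := by exact_mod_cast h4.le
      calc Real.sqrt (r * n) ≤ Real.sqrt (12 ^ 2) := Real.sqrt_le_sqrt (by nlinarith)
        _ = 12 := Real.sqrt_sq (by norm_num)
    · refine (ww_le (n - 2) j (by omega) h0 h1 (by omega)).trans ?_
      have hs' : 0 < Real.sqrt (r * (((n - 2 : ℕ) : ℝ) / 2)) := by
        apply Real.sqrt_pos.mpr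
        have : 0 < n - 2 := by omega
        have : (0 : ℝ) < ((n - 2 : ℕ) : ℝ) := by exact_mod_cast this
        positivity
      rw [div_le_div_iff₀ hs' hs]
      have h6 : (n : ℝ) ≤ 9 * (((n - 2 : ℕ) : ℝ) / 2) := by
        have h7 : 2 * n ≤ 9 * (n - 2) := by omega
        have h8 : (2 * n : ℝ) ≤ 9 * ((n - 2 : ℕ) : ℝ) := by exact_mod_cast h7
        linarith
      have h7 : Real.sqrt (r * n) ≤ 3 * Real.sqrt (r * (((n - 2 : ℕ) : ℝ) / 2)) := by
        calc Real.sqrt (r * n) ≤ Real.sqrt (3 ^ 2 * (r * (((n - 2 : ℕ) : ℝ) / 2))) := by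
              apply Real.sqrt_le_sqrt
              nlinarith
          _ = 3 * Real.sqrt (r * (((n - 2 : ℕ) : ℝ) / 2)) := by
              rw [Real.sqrt_mul (by norm_num), Real.sqrt_sq (by norm_num)]
      linarith
  have h := sum_below hP (w := ww (n - 2) r) (M := 12 / Real.sqrt (r * n)) (J := n - 1) (by omega)
    (by positivity) (fun j _ => ww_nonneg _ _ h0.le hr1) hwM (by
      rw [← hn1]
      exact ww_sum (n - 2) h0.le h1)
  refine h.trans ?_
  have e2 : ((n - 1 : ℕ) : ℝ) ^ (1 / 3 : ℝ) ≤ (n : ℝ) ^ (1 / 3 : ℝ) := by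
    apply Real.rpow_le_rpow (Nat.cast_nonneg _) _ (by norm_num)
    exact_mod_cast Nat.sub_le n 1
  have e3 : (12 / Real.sqrt (r * n)) ^ (1 / 3 : ℝ) ≤ 8 / 3 * (r * n) ^ (-(1 / 6) : ℝ) := by
    rw [Real.sqrt_eq_rpow, Real.div_rpow (by norm_num) (by positivity), ← Real.rpow_mul hrn.le,
      Real.rpow_neg hrn.le, div_eq_mul_inv]
    have e4 : (12 : ℝ) ^ (1 / 3 : ℝ) ≤ 8 / 3 := by
      have : ((12 : ℝ) ^ (1 / 3 : ℝ)) ^ 3 ≤ (8 / 3 : ℝ) ^ 3 := by
        rw [← Real.rpow_natCast, ← Real.rpow_mul (by norm_num)]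
        norm_num
      exact le_of_pow_le_pow_left₀ (by norm_num) (by norm_num) this
    have e5 : (1 / 2 * (1 / 3) : ℝ) = 1 / 6 := by norm_num
    rw [e5]
    exact mul_le_mul_of_nonneg_right e4 (by positivity)
  calc 90 * (n : ℝ) * (((n - 1 : ℕ) : ℝ) ^ (1 / 3 : ℝ) * (12 / Real.sqrt (r * n)) ^ (1 / 3 : ℝ)) ≤
        90 * (n : ℝ) * ((n : ℝ) ^ (1 / 3 : ℝ) * (8 / 3 * (r * n) ^ (-(1 / 6) : ℝ))) := by gcongr
    _ = 240 * ((n : ℝ) * (n : ℝ) ^ (1 / 3 : ℝ) * (n : ℝ) ^ (-(1 / 6) : ℝ)) * r ^ (-(1 / 6) : ℝ) := by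
        rw [Real.mul_rpow h0.le hn0.le]
        ring
    _ = _ := by
        have e6 : (n : ℝ) * (n : ℝ) ^ (1 / 3 : ℝ) * (n : ℝ) ^ (-(1 / 6) : ℝ) =
            (n : ℝ) ^ (7 / 6 : ℝ) := by
          nth_rewrite 1 [← Real.rpow_one (n : ℝ)]
          rw [← Real.rpow_add hn0, ← Real.rpow_add hn0]
          norm_num
        rw [e6]

end Pool.Agent.Y344.KD
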