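import Pool.Agent.Y344.KD.Rand

/-! Bisectors of random subsets of a planar point set. -/

set_option autoImplicit false

namespace Pool.Agent.Y344.KD

open Finset Pool.Agent.H189R2.Lev Pool.Agent.H189R2.Iid

open Pool.Agent.Results.MP_a08d0a_co.SmoothedLevel (Simple)

theorem gen_mono {P P' : Finset (ℝ × ℝ)} (hP : W296.HL.Gen P) (h : P' ⊆ P) : W296.HL.Gen P' :=
  fun p hp q hq x hx => hP p (h hp) q (h hq) x (h hx)

theorem frame_sub {P : Finset (ℝ × ℝ)} {n : ℕ} (F : Frame P n) (D : Finset (Fin n)) :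
    D.image F.p ⊆ P := by
  classical
  have h : D.image F.p ⊆ univ.image F.p := image_subset_image (subset_univ _)
  exact h.trans F.img.le

/-- from balanced pairs to bisectors, without parity -/
theorem bisectors_le_bal {P : Finset (ℝ × ℝ)} (hP : W296.HL.Gen P) {n : ℕ} (F : Frame P n)
    {Q : Fin n → ℝ × ℝ}
    (hQ : ∀ i j, F.a j < F.a i → (Q j).1 < (Q i).1 ∧ ∀ l, (Q l ∈ low (Q i) (Q j) ↔
      ht F.a F.B l (cr F.a F.B i j) < ht F.a F.B i (cr F.a F.B i j)))
    (D : Finset (Fin n)) :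
    {L | W296.HL.IsBisector (Dᶜ.image F.p) L}.ncard ≤ (bal Q D).card := by
  classical
  set P' := Dᶜ.image F.p with hP'
  have hG : W296.HL.Gen P' := gen_mono hP (frame_sub F _)
  have hc : P'.card = n - D.card := by
    rw [hP', card_image_of_injective _ F.inj, card_compl, Fintype.card_fin]
  have hset : ∀ i j, F.a j < F.a i →
      (lowSet Q (i, j) \ D).card = (P'.filter (fun x => 0 < W296.HL.cr (F.p i) (F.p j) x)).card := by
    intro i j hij
    rw [← card_image_of_injective _ F.inj]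
    congr 1
    ext x
    rw [mem_image, mem_filter, hP', mem_image]
    constructor
    · rintro ⟨l, hl, rfl⟩
      rw [mem_lowD] at hl
      exact ⟨⟨l, mem_compl.mpr hl.2, rfl⟩,
        (F.low i j hij l).mp (((hQ i j hij).2 l).mp hl.1)⟩
    · rintro ⟨⟨l, hl, rfl⟩, hx⟩
      refine ⟨l, mem_lowD.mpr ⟨((hQ i j hij).2 l).mpr ((F.low i j hij l).mpr hx), ?_⟩, rfl⟩
      exact mem_compl.mp hl
  have hbal : ∀ i j, i ∈ Dᶜ → j ∈ Dᶜ → F.a j < F.a i → W296.HL.Hv P' (F.p i) (F.p j) →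
      (i, j) ∈ bal Q D := by
    intro i j hi hj hij hH
    have hT : (i, j) ∈ T Q := by
      rw [mem_T]
      exact (hQ i j hij).1
    unfold bal
    rw [mem_filter]
    refine ⟨hT, ?_⟩
    have h1 := up_card hT D (mem_compl.mp hi) (mem_compl.mp hj)
    have h2 := W296.HL.card3 hG (mem_image_of_mem F.p hi) (mem_image_of_mem F.p hj) hH.1
    have h3 := hset i j hij
    have h4 := hH.2.1
    have h5 := hH.2.2
    rw [← hc] at h1
    omega
  have hsub : W296.HL.HH P' ⊆ (bal Q D).image (fun q => (F.p q.1, F.p q.2)) ∪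
      (bal Q D).image (fun q => (F.p q.2, F.p q.1)) := by
    rintro ⟨x, y⟩ hz
    rw [W296.HL.mem_HH] at hz
    obtain ⟨hx, hy, hH⟩ := hz
    simp only at hx hy hH
    rw [hP', mem_image] at hx hy
    obtain ⟨i, hi, rfl⟩ := hx
    obtain ⟨j, hj, rfl⟩ := hy
    have hij : i ≠ j := fun h => hH.1 (by rw [h])
    rcases lt_or_gt_of_ne (F.ainj.ne hij) with h | h
    · rw [mem_union]
      right
      rw [mem_image]
      exact ⟨(j, i), hbal j i hj hi h hH.symm, rfl⟩
    · rw [mem_union]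
      left
      rw [mem_image]
      exact ⟨(i, j), hbal i j hi hj h hH, rfl⟩
  have h1 := W296.HL.two_mul_ncard_le P'
  have h2 := (card_le_card hsub).trans (card_union_le _ _)
  have h3 := card_image_le (s := bal Q D) (f := fun q => (F.p q.1, F.p q.2))
  have h4 := card_image_le (s := bal Q D) (f := fun q => (F.p q.2, F.p q.1))
  omega

theorem sum_powerset_frame {P : Finset (ℝ × ℝ)} {n : ℕ} (F : Frame P n)
    (f : Finset (ℝ × ℝ) → ℝ) :
    ∑ D ∈ P.powerset, f D = ∑ D : Finset (Fin n), f (D.image F.p) := by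
  classical
  symm
  apply sum_bij (fun D _ => D.image F.p)
  · intro D _
    rw [mem_powerset]
    exact frame_sub F D
  · intro D _ D' _ h
    exact image_injective F.inj h
  · intro E hE
    rw [mem_powerset, ← F.img] at hE
    obtain ⟨D, _, hD⟩ := subset_image_iff.mp hE
    exact ⟨D, mem_univ _, hD⟩
  · intro D _
    rfl

/-- expected number of bisectors after random deletions -/
theorem exp_bisectors {P : Finset (ℝ × ℝ)} (hP : W296.HL.Gen P) {r : ℝ} (h0 : 0 < r)
    (h1 : r ≤ 1 / 2) :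
    ∑ D ∈ P.powerset, r ^ D.card * (1 - r) ^ (P.card - D.card) *
      ({L | W296.HL.IsBisector (P \ D) L}.ncard : ℝ) ≤
      240 * (P.card : ℝ) ^ (7 / 6 : ℝ) * r ^ (-(1 / 6) : ℝ) := by
  classical
  obtain ⟨F⟩ := exists_frame hP
  obtain ⟨Q, hGP, hQ⟩ := exists_GP F.simple
  refine le_trans ?_ (exp_bal hGP h0 h1)
  rw [sum_powerset_frame F]
  apply sum_le_sum
  intro D _
  have e1 : P \ D.image F.p = Dᶜ.image F.p := by
    rw [compl_eq_univ_sdiff, image_sdiff _ _ F.inj, F.img]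
  rw [e1, card_image_of_injective _ F.inj]
  have h2 : ({L | W296.HL.IsBisector (Dᶜ.image F.p) L}.ncard : ℝ) ≤ (bal Q D).card := by
    exact_mod_cast bisectors_le_bal hP F hQ D
  exact mul_le_mul_of_nonneg_left h2 (wt_nonneg h0.le (by linarith) D)

/-- average over all subsets -/
theorem avg_bisectors {P : Finset (ℝ × ℝ)} (hP : W296.HL.Gen P) :
    ∑ S ∈ P.powerset, ({L | W296.HL.IsBisector S L}.ncard : ℝ) ≤
      2 ^ P.card * (270 * (P.card : ℝ) ^ (7 / 6 : ℝ)) := by
  classical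
  have h := exp_bisectors hP (r := 1 / 2) (by norm_num) le_rfl
  have e1 : ∑ D ∈ P.powerset, (1 / 2 : ℝ) ^ D.card * (1 - 1 / 2) ^ (P.card - D.card) *
      ({L | W296.HL.IsBisector (P \ D) L}.ncard : ℝ) =
      (1 / 2) ^ P.card * ∑ S ∈ P.powerset, ({L | W296.HL.IsBisector S L}.ncard : ℝ) := by
    rw [mul_sum]
    apply sum_nbij' (fun D => P \ D) (fun D => P \ D)
    · intro D _
      exact mem_powerset.mpr sdiff_subset
    · intro D _
      exact mem_powerset.mpr sdiff_subset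
    · intro D hD
      exact Finset.sdiff_sdiff_eq_self (mem_powerset.mp hD)
    · intro D hD
      exact Finset.sdiff_sdiff_eq_self (mem_powerset.mp hD)
    · intro D hD
      have h3 := card_le_card (mem_powerset.mp hD)
      rw [show (1 - 1 / 2 : ℝ) = 1 / 2 by norm_num, ← pow_add, Nat.add_sub_cancel' h3]
  rw [e1] at h
  have e2 : (1 / 2 : ℝ) ^ (-(1 / 6) : ℝ) ≤ 9 / 8 := by
    rw [Real.rpow_neg (by norm_num), ← Real.inv_rpow (by norm_num)]
    norm_num
    have : ((2 : ℝ) ^ (1 / 6 : ℝ)) ^ 6 ≤ (9 / 8 : ℝ) ^ 6 := by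
      rw [← Real.rpow_natCast, ← Real.rpow_mul (by norm_num)]
      norm_num
    exact le_of_pow_le_pow_left₀ (by norm_num) (by norm_num) this
  have e3 : (0 : ℝ) < 2 ^ P.card := by positivity
  have e4 : (1 / 2 : ℝ) ^ P.card * 2 ^ P.card = 1 := by
    rw [← mul_pow]
    norm_num
  have e5 : (0 : ℝ) ≤ (P.card : ℝ) ^ (7 / 6 : ℝ) := by positivity
  calc ∑ S ∈ P.powerset, ({L | W296.HL.IsBisector S L}.ncard : ℝ) =
        2 ^ P.card * ((1 / 2) ^ P.card *
          ∑ S ∈ P.powerset, ({L | W296.HL.IsBisector S L}.ncard : ℝ)) := by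
        rw [← mul_assoc, mul_comm ((2 : ℝ) ^ P.card), e4, one_mul]
    _ ≤ 2 ^ P.card * (240 * (P.card : ℝ) ^ (7 / 6 : ℝ) * (1 / 2) ^ (-(1 / 6) : ℝ)) :=
        mul_le_mul_of_nonneg_left h e3.le
    _ ≤ 2 ^ P.card * (240 * (P.card : ℝ) ^ (7 / 6 : ℝ) * (9 / 8)) := by gcongr
    _ = _ := by ring

end Pool.Agent.Y344.KD
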