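import Pool.Agent.Y344.KD.Win
import Pool.Agent.H189R2.Iid.Bin

/-! Weighted sums over the pairs of a point set, the weight depending on the level. -/

set_option autoImplicit false

namespace Pool.Agent.Y344.KD

open Finset Pool.Agent.H189R2.Lev Pool.Agent.H189R2.Iid

/-- a layer-cake argument: sums of `e j * w j` when `e` is bounded by `A |W| ^ (2 / 3)` on all sets -/
theorem layer {J : Finset ℕ} {e w : ℕ → ℝ} {A M : ℝ} (hA : 0 ≤ A) (hM : 0 < M)
    (he : ∀ W ⊆ J, ∑ j ∈ W, e j ≤ A * (W.card : ℝ) ^ (2 / 3 : ℝ))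
    (hw0 : ∀ j ∈ J, 0 ≤ w j) (hwM : ∀ j ∈ J, w j ≤ M) (hw : ∑ j ∈ J, w j ≤ 2) :
    ∑ j ∈ J, e j * w j ≤ 5 * A * M ^ (1 / 3 : ℝ) := by
  classical
  have h1 : ∀ j ∈ J, ∫ s in (0 : ℝ)..M, Set.indicator {x | x ≤ w j} (fun _ => e j) s = e j * w j := by
    intro j hj
    rw [intervalIntegral.integral_indicator ⟨hw0 j hj, hwM j hj⟩, intervalIntegral.integral_const]
    simp [mul_comm]
  have hint : ∀ j ∈ J, IntervalIntegrable (Set.indicator {x | x ≤ w j} (fun _ => e j))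
      MeasureTheory.volume 0 M := by
    intro j _
    constructor
    · exact (MeasureTheory.integrableOn_const (by simp)).indicator measurableSet_Iic
    · exact (MeasureTheory.integrableOn_const (by simp)).indicator measurableSet_Iic
  have h2 : ∑ j ∈ J, e j * w j =
      ∫ s in (0 : ℝ)..M, ∑ j ∈ J, Set.indicator {x | x ≤ w j} (fun _ => e j) s := by
    rw [intervalIntegral.integral_finsetSum hint]
    exact (sum_congr rfl h1).symm
  have hr : IntervalIntegrable (fun s : ℝ => A * 2 ^ (2 / 3 : ℝ) * s ^ (-(2 / 3) : ℝ))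
      MeasureTheory.volume 0 M :=
    (intervalIntegral.intervalIntegrable_rpow' (by norm_num)).const_mul _
  have h3 : ∫ s in (0 : ℝ)..M, ∑ j ∈ J, Set.indicator {x | x ≤ w j} (fun _ => e j) s ≤
      ∫ s in (0 : ℝ)..M, A * 2 ^ (2 / 3 : ℝ) * s ^ (-(2 / 3) : ℝ) := by
    apply intervalIntegral.integral_mono_on_of_le_Ioo hM.le
    · have h := IntervalIntegrable.sum J hint
      have e : (fun s => ∑ j ∈ J, Set.indicator {x | x ≤ w j} (fun _ => e j) s) =
          ∑ j ∈ J, Set.indicator {x | x ≤ w j} (fun _ => e j) := by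
        funext s
        rw [Finset.sum_apply]
      rw [e]
      exact h
    · exact hr
    · intro s hs
      have hs0 : 0 < s := hs.1
      set W := J.filter (fun j => s ≤ w j) with hW
      have e1 : ∑ j ∈ J, Set.indicator {x | x ≤ w j} (fun _ => e j) s = ∑ j ∈ W, e j := by
        rw [hW, sum_filter]
        apply sum_congr rfl
        intro j _
        simp [Set.indicator_apply]
      rw [e1]
      refine (he W (filter_subset _ _)).trans ?_
      rw [mul_assoc]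
      apply mul_le_mul_of_nonneg_left _ hA
      have e2 : (W.card : ℝ) * s ≤ 2 := by
        calc (W.card : ℝ) * s = ∑ j ∈ W, s := by rw [sum_const, nsmul_eq_mul]
          _ ≤ ∑ j ∈ W, w j := sum_le_sum (fun j hj => (mem_filter.mp hj).2)
          _ ≤ ∑ j ∈ J, w j := sum_le_sum_of_subset_of_nonneg (filter_subset _ _)
              (fun j hj _ => hw0 j hj)
          _ ≤ 2 := hw
      have e3 : (W.card : ℝ) ≤ 2 * s⁻¹ := by
        rw [← div_eq_mul_inv, le_div_iff₀ hs0]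
        exact e2
      calc (W.card : ℝ) ^ (2 / 3 : ℝ) ≤ (2 * s⁻¹) ^ (2 / 3 : ℝ) :=
            Real.rpow_le_rpow (Nat.cast_nonneg _) e3 (by norm_num)
        _ = 2 ^ (2 / 3 : ℝ) * s ^ (-(2 / 3) : ℝ) := by
            rw [Real.mul_rpow (by norm_num) (by positivity), Real.inv_rpow hs0.le,
              Real.rpow_neg hs0.le]
  rw [h2]
  refine h3.trans ?_
  rw [intervalIntegral.integral_const_mul, integral_rpow (Or.inl (by norm_num))]
  have e4 : (-(2 / 3) + 1 : ℝ) = 1 / 3 := by norm_num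
  rw [e4, Real.zero_rpow (by norm_num), sub_zero]
  have e5 : (2 : ℝ) ^ (2 / 3 : ℝ) ≤ 5 / 3 := by
    have : ((2 : ℝ) ^ (2 / 3 : ℝ)) ^ 3 ≤ (5 / 3 : ℝ) ^ 3 := by
      rw [← Real.rpow_natCast, ← Real.rpow_mul (by norm_num)]
      norm_num
    exact le_of_pow_le_pow_left₀ (by norm_num) (by norm_num) this
  have e6 : 0 ≤ M ^ (1 / 3 : ℝ) := by positivity
  have e7 : A * 2 ^ (2 / 3 : ℝ) * (M ^ (1 / 3 : ℝ) / (1 / 3)) =
      3 * (2 ^ (2 / 3 : ℝ) * (A * M ^ (1 / 3 : ℝ))) := by ring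
  rw [e7]
  have e8 : 0 ≤ A * M ^ (1 / 3 : ℝ) := by positivity
  nlinarith

variable {n : ℕ} {P : Fin n → ℝ × ℝ}

/-- the number of pairs of level `j` -/
noncomputable def ee (P : Fin n → ℝ × ℝ) (j : ℕ) : ℝ := ((EW P {j}).card : ℝ)

open Classical in
theorem sum_ee (P : Fin n → ℝ × ℝ) (W : Finset ℕ) : ∑ j ∈ W, ee P j = ((EW P W).card : ℝ) := by
  unfold ee
  rw [← Nat.cast_sum]
  congr 1
  have h : EW P W = W.biUnion (fun j => EW P {j}) := by
    ext q
    simp only [EW, mem_filter, mem_biUnion, mem_singleton]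
    constructor
    · rintro ⟨h1, h2⟩
      exact ⟨lev P q, h2, h1, rfl⟩
    · rintro ⟨j, hj, h1, h2⟩
      exact ⟨h1, by rw [h2]; exact hj⟩
  rw [h, card_biUnion]
  intro i _ j _ hij
  change Disjoint (EW P {i}) (EW P {j})
  rw [disjoint_left]
  intro q hq hq'
  simp only [EW, mem_filter, mem_singleton] at hq hq'
  exact hij (hq.2.symm.trans hq'.2)

open Classical in
theorem sum_w (P : Fin n → ℝ × ℝ) (W : Finset ℕ) (w : ℕ → ℝ) :
    ∑ q ∈ EW P W, w (lev P q) = ∑ j ∈ W, ee P j * w j := by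
  have h : EW P W = W.biUnion (fun j => EW P {j}) := by
    ext q
    simp only [EW, mem_filter, mem_biUnion, mem_singleton]
    constructor
    · rintro ⟨h1, h2⟩
      exact ⟨lev P q, h2, h1, rfl⟩
    · rintro ⟨j, hj, h1, h2⟩
      exact ⟨h1, by rw [h2]; exact hj⟩
  rw [h, sum_biUnion]
  · apply sum_congr rfl
    intro j _
    unfold ee
    rw [← nsmul_eq_mul, ← sum_const]
    apply sum_congr rfl
    intro q hq
    simp only [EW, mem_filter, mem_singleton] at hq
    rw [hq.2]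
  · intro i _ j _ hij
    change Disjoint (EW P {i}) (EW P {j})
    rw [disjoint_left]
    intro q hq hq'
    simp only [EW, mem_filter, mem_singleton] at hq hq'
    exact hij (hq.2.symm.trans hq'.2)

/-- the sum over the pairs of level below `J` -/
theorem sum_below (hP : GP P) {w : ℕ → ℝ} {M : ℝ} {J : ℕ} (hJ : 0 < J) (hM : 0 < M)
    (hw0 : ∀ j < J, 0 ≤ w j)
    (hwM : ∀ j < J, w j ≤ M) (hw : ∑ j ∈ range J, w j ≤ 2) :
    ∑ q ∈ EW P (range J), w (lev P q) ≤ 90 * n * ((J : ℝ) ^ (1 / 3 : ℝ) * M ^ (1 / 3 : ℝ)) := by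
  rw [sum_w]
  have h := layer (J := range J) (e := ee P) (w := w) (A := 18 * n * (J : ℝ) ^ (1 / 3 : ℝ))
    (by positivity) hM (by
      intro W hW
      rw [sum_ee]
      have := window hP W (K := J - 1) (fun k hk => by
        have := mem_range.mp (hW hk)
        omega)
      have e : (((J - 1 : ℕ) : ℝ) + 1) = J := by
        have : J - 1 + 1 = J := Nat.sub_add_cancel hJ
        exact_mod_cast this
      rw [e] at this
      rw [mul_assoc]
      exact this) (fun j hj => hw0 j (mem_range.mp hj)) (fun j hj => hwM j (mem_range.mp hj)) hw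
  refine h.trans (le_of_eq ?_)
  ring

open Classical in
theorem lev_lt (P : Fin n → ℝ × ℝ) (q : Fin n × Fin n) : lev P q < n + 1 := by
  unfold lev
  have := card_filter_le (univ : Finset (Fin n)) (fun l => P l ∈ low (P q.1) (P q.2))
  simp only [card_univ, Fintype.card_fin] at this
  omega

open Classical in
theorem EW_all (P : Fin n → ℝ × ℝ) {J : ℕ} (hJ : n + 1 ≤ J) : EW P (range J) = T P := by
  unfold EW
  rw [filter_true_of_mem]
  intro q _
  rw [mem_range]
  have := lev_lt P q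
  omega

/-- all pairs, weights that decrease geometrically beyond `4 (k + 1)` -/
theorem sum_total (hP : GP P) {w : ℕ → ℝ} {M : ℝ} {k : ℕ} (hM : 0 < M) (hM1 : M ≤ 1)
    (hw0 : ∀ j, 0 ≤ w j) (hwM : ∀ j, w j ≤ M) (hw : ∀ J, ∑ j ∈ range J, w j ≤ 2)
    (hdec : ∀ j, 4 * (k + 1) ≤ j → w (j + 1) ≤ 2 / 3 * w j) :
    ∑ q ∈ T P, w (lev P q) ≤ 500 * n * (((k : ℝ) + 1) ^ (1 / 3 : ℝ) * M ^ (1 / 3 : ℝ)) := by
  classical
  set J := 4 * (k + 1) with hJ
  have hn : (0 : ℝ) ≤ n := Nat.cast_nonneg n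
  have h1 := sum_below hP (w := w) (M := M) (J := J) (by omega) hM (fun j _ => hw0 j)
    (fun j _ => hwM j) (hw J)
  have hgeo : ∀ i, w (J + i) ≤ (2 / 3) ^ i * M := by
    intro i
    induction i with
    | zero => simpa using hwM J
    | succ i ih =>
      have := hdec (J + i) (by omega)
      rw [← add_assoc]
      calc w (J + i + 1) ≤ 2 / 3 * w (J + i) := this
        _ ≤ 2 / 3 * ((2 / 3) ^ i * M) := by gcongr
        _ = _ := by ring
  have hee : ∀ j, ee P j ≤ 18 * n * ((j : ℝ) + 1) ^ (1 / 3 : ℝ) := by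
    intro j
    have := window hP {j} (K := j) (by simp)
    unfold ee
    simpa using this
  have hk1 : (1 : ℝ) ≤ (k : ℝ) + 1 := by
    have : (0 : ℝ) ≤ k := Nat.cast_nonneg k
    linarith
  set g : ℝ := ((k : ℝ) + 1) ^ (1 / 3 : ℝ) with hg
  have hg0 : 0 ≤ g := by positivity
  have c4 : (4 : ℝ) ^ (1 / 3 : ℝ) ≤ 17 / 10 := by
    have : ((4 : ℝ) ^ (1 / 3 : ℝ)) ^ 3 ≤ (17 / 10 : ℝ) ^ 3 := by
      rw [← Real.rpow_natCast, ← Real.rpow_mul (by norm_num)]
      norm_num
    exact le_of_pow_le_pow_left₀ (by norm_num) (by norm_num) this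
  have c5 : (5 : ℝ) ^ (1 / 3 : ℝ) ≤ 2 := by
    have : ((5 : ℝ) ^ (1 / 3 : ℝ)) ^ 3 ≤ (2 : ℝ) ^ 3 := by
      rw [← Real.rpow_natCast, ← Real.rpow_mul (by norm_num)]
      norm_num
    exact le_of_pow_le_pow_left₀ (by norm_num) (by norm_num) this
  have hJr : ((J : ℕ) : ℝ) = 4 * ((k : ℝ) + 1) := by rw [hJ]; push_cast; ring
  have hJ3 : (J : ℝ) ^ (1 / 3 : ℝ) ≤ 17 / 10 * g := by
    rw [hJr, Real.mul_rpow (by norm_num) (by linarith)]
    exact mul_le_mul_of_nonneg_right c4 hg0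
  -- the tail
  have htail : ∀ i, ee P (J + i) * w (J + i) ≤ 36 * n * (g * M) * (((i : ℝ) + 1) * (2 / 3) ^ i) := by
    intro i
    have a1 : ((J + i : ℕ) : ℝ) + 1 ≤ 5 * (((k : ℝ) + 1) * ((i : ℝ) + 1)) := by
      push_cast
      rw [hJr]
      have : (0 : ℝ) ≤ i := Nat.cast_nonneg i
      nlinarith
    have a2 : (((J + i : ℕ) : ℝ) + 1) ^ (1 / 3 : ℝ) ≤ 2 * (g * ((i : ℝ) + 1)) := by
      calc (((J + i : ℕ) : ℝ) + 1) ^ (1 / 3 : ℝ) ≤
            (5 * (((k : ℝ) + 1) * ((i : ℝ) + 1))) ^ (1 / 3 : ℝ) :=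
            Real.rpow_le_rpow (by positivity) a1 (by norm_num)
        _ = 5 ^ (1 / 3 : ℝ) * (g * ((i : ℝ) + 1) ^ (1 / 3 : ℝ)) := by
            rw [Real.mul_rpow (by norm_num) (by positivity), Real.mul_rpow (by linarith)
              (by positivity)]
        _ ≤ 2 * (g * ((i : ℝ) + 1)) := by
            have b1 : ((i : ℝ) + 1) ^ (1 / 3 : ℝ) ≤ (i : ℝ) + 1 := by
              have hi1 : (1 : ℝ) ≤ (i : ℝ) + 1 := by
                have : (0 : ℝ) ≤ i := Nat.cast_nonneg i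
                linarith
              calc ((i : ℝ) + 1) ^ (1 / 3 : ℝ) ≤ ((i : ℝ) + 1) ^ (1 : ℝ) :=
                    Real.rpow_le_rpow_of_exponent_le hi1 (by norm_num)
                _ = _ := Real.rpow_one _
            gcongr
    calc ee P (J + i) * w (J + i) ≤ (18 * n * (((J + i : ℕ) : ℝ) + 1) ^ (1 / 3 : ℝ)) *
          ((2 / 3) ^ i * M) := mul_le_mul (hee _) (hgeo i) (hw0 _) (by positivity)
      _ ≤ (18 * n * (2 * (g * ((i : ℝ) + 1)))) * ((2 / 3) ^ i * M) := by gcongr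
      _ = _ := by ring
  have h2 : ∑ q ∈ T P, w (lev P q) = ∑ q ∈ EW P (range J), w (lev P q) +
      ∑ i ∈ range (n + 1), ee P (J + i) * w (J + i) := by
    rw [← EW_all P (J := J + (n + 1)) (by omega), sum_w, sum_w, sum_range_add]
  rw [h2]
  have h3 : ∑ i ∈ range (n + 1), ee P (J + i) * w (J + i) ≤ 36 * n * (g * M) * 9 := by
    calc ∑ i ∈ range (n + 1), ee P (J + i) * w (J + i) ≤
          ∑ i ∈ range (n + 1), 36 * n * (g * M) * (((i : ℝ) + 1) * (2 / 3) ^ i) :=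
          sum_le_sum (fun i _ => htail i)
      _ = 36 * n * (g * M) * ∑ i ∈ range (n + 1), ((i : ℝ) + 1) * (2 / 3) ^ i := by
          rw [mul_sum]
      _ ≤ 36 * n * (g * M) * 9 := by
          apply mul_le_mul_of_nonneg_left _ (by positivity)
          have := sum_geom (r := 2 / 3) (by norm_num) (by norm_num) (n + 1)
          norm_num at this ⊢
          exact this
  have h4 : M ≤ M ^ (1 / 3 : ℝ) := by
    calc M = M ^ (1 : ℝ) := (Real.rpow_one M).symm
      _ ≤ M ^ (1 / 3 : ℝ) := Real.rpow_le_rpow_of_exponent_ge hM hM1 (by norm_num)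
  have hM3 : 0 ≤ M ^ (1 / 3 : ℝ) := by positivity
  calc _ ≤ 90 * n * ((J : ℝ) ^ (1 / 3 : ℝ) * M ^ (1 / 3 : ℝ)) + 36 * n * (g * M) * 9 :=
        add_le_add h1 h3
    _ ≤ 90 * n * (17 / 10 * g * M ^ (1 / 3 : ℝ)) + 36 * n * (g * M ^ (1 / 3 : ℝ)) * 9 := by
        gcongr
    _ ≤ 500 * n * (g * M ^ (1 / 3 : ℝ)) := by
        have : 0 ≤ n * (g * M ^ (1 / 3 : ℝ)) := by positivity
        nlinarith

end Pool.Agent.Y344.KD
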