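import Pool.Agent.Y344.KD.Lines
import Pool.Agent.H365PP.L5
import Pool.Agent.H365PP.Shift
import Pool.Agent.H365PP.StripsN

/-! Deleting points of three sets without a common transversal line: no line stays balanced. -/

set_option autoImplicit false

namespace Pool.Agent.Y344.KD

open Finset Pool.Agent.H189R2.Lev Pool.Agent.H189R2.Iid

open Pool.Agent.Results.MP_a08d0a_co.SmoothedLevel (Simple)

variable {n : ℕ}

/-- three sets such that every line misses one of them -/
theorem three_sets {a B : Fin n → ℝ} (ha : Function.Injective a) (hS : Simple a B) {m : ℕ}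
    (hm : 3 * (2 * m + 1) ≤ n) :
    ∃ T : Fin 3 → Finset (Fin n), (∀ s, m ≤ (T s).card) ∧ (∀ s t, s ≠ t → Disjoint (T s) (T t)) ∧
      ∀ i j, a j < a i → ∃ s, (∀ l ∈ T s, ht a B l (cr a B i j) < ht a B i (cr a B i j)) ∨
        (∀ l ∈ T s, ¬ ht a B l (cr a B i j) < ht a B i (cr a B i j)) := by
  classical
  have hG : H365PP.GP a B (univ : Finset (Fin n)) := by
    refine ⟨fun i _ j _ h => ha h, fun i _ j _ l _ hij hli hlj h => ?_⟩
    set s := H365PP.sl a B i j with hs
    have haij : a i ≠ a j := fun h => hij (ha h)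
    have h2 : H365PP.hh a B s j = H365PP.hh a B s i := H365PP.hh_sl haij
    apply hS.2 i j l hij (Ne.symm hli) (Ne.symm hlj)
    refine ⟨-s, ?_, ?_⟩
    · unfold H365PP.hh at h2
      unfold ht
      linarith
    · unfold H365PP.hh at h
      unfold ht
      linarith
  obtain ⟨S, hS1, hS2, hS3⟩ := H365PP.stripsN 3 (X := a) (univ : Finset (Fin n)) hG.inj
    (w := 2 * m + 1) (by simpa using hm)
  have h01 : (0 : Fin 3) < 1 := by decide
  have h12 : (1 : Fin 3) < 2 := by decide
  have h02 : (0 : Fin 3) < 2 := by decide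
  obtain ⟨A', hA', B', hB', C', hC', cA, cB, cC, hT⟩ := H365PP.refine3 (X := a) (Y := B)
    (A := S 0) (B := S 1) (C := S 2) (m := m) (hG.mono (subset_univ _)) (hS3 0 1 h01) (hS3 1 2 h12)
    (hS2 0).ge (hS2 1).ge (hS2 2).ge (fun α hα β hβ => H365PP.surj_pairs'
      (hG.mono (subset_univ _)) (hS3 0 2 h02) hα hβ)
  have dj : ∀ s t : Fin 3, s < t → ∀ x ∈ S s, ∀ y ∈ S t, x ≠ y := by
    intro s t hst x hx y hy h
    have := hS3 s t hst x hx y hy
    rw [h] at this
    exact lt_irrefl _ this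
  have d01 : Disjoint A' B' := disjoint_left.mpr (fun x h1 h2 => dj 0 1 h01 x (hA' h1) x (hB' h2) rfl)
  have d12 : Disjoint B' C' := disjoint_left.mpr (fun x h1 h2 => dj 1 2 h12 x (hB' h1) x (hC' h2) rfl)
  have d02 : Disjoint A' C' := disjoint_left.mpr (fun x h1 h2 => dj 0 2 h02 x (hA' h1) x (hC' h2) rfl)
  refine ⟨![A', B', C'], ?_, ?_, ?_⟩
  · intro s
    fin_cases s
    · exact cA
    · exact cB
    · exact cC
  · intro s t hst
    fin_cases s <;> fin_cases t
    · exact absurd rfl hst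
    · exact d01
    · exact d02
    · exact d01.symm
    · exact absurd rfl hst
    · exact d12
    · exact d02.symm
    · exact d12.symm
    · exact absurd rfl hst
  · intro i j hij
    have hns : ∀ U : Finset (Fin n), ¬ H365PP.Hit a B (-cr a B i j) (ht a B i (cr a B i j)) U →
        (∀ l ∈ U, ht a B l (cr a B i j) < ht a B i (cr a B i j)) ∨
        (∀ l ∈ U, ¬ ht a B l (cr a B i j) < ht a B i (cr a B i j)) := by
      intro U hU
      have e : ∀ l, H365PP.hh a B (-cr a B i j) l = ht a B l (cr a B i j) := by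
        intro l
        unfold H365PP.hh ht
        ring
      unfold H365PP.Hit at hU
      rw [not_and_or] at hU
      push Not at hU
      rcases hU with h | h
      · left
        intro l hl
        rw [← e l]
        exact h l hl
      · right
        intro l hl
        rw [← e l]
        exact not_lt.mpr (h l hl).le
    have h := hT (-cr a B i j) (ht a B i (cr a B i j))
    rw [not_and_or, not_and_or] at h
    rcases h with h | h | h
    · exact ⟨0, hns A' h⟩
    · exact ⟨1, hns B' h⟩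
    · exact ⟨2, hns C' h⟩

/-- the pairs whose line is balanced after the deletion of `D` -/
noncomputable def halv (P : Fin n → ℝ × ℝ) (D : Finset (Fin n)) : Finset (Fin n × Fin n) :=
  (T P).filter (fun q => 2 * (lowSet P q \ D).card + 2 = n - D.card)

theorem mem_halv {P : Fin n → ℝ × ℝ} {D : Finset (Fin n)} {q : Fin n × Fin n} :
    q ∈ halv P D ↔ q ∈ T P ∧ 2 * (lowSet P q \ D).card + 2 = n - D.card := by
  unfold halv
  rw [mem_filter]

theorem card_sdiff_union {D : Finset (Fin n)} {F : Fin 3 → Finset (Fin n)}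
    (hD : D = univ.biUnion F) (hF : ∀ s t, s ≠ t → Disjoint (F s) (F t)) (L : Finset (Fin n)) :
    (L \ D).card + ((L ∩ F 0).card + (L ∩ F 1).card + (L ∩ F 2).card) = L.card := by
  classical
  have h1 : L ∩ D = univ.biUnion (fun s => L ∩ F s) := by
    rw [hD, inter_biUnion]
  have h2 : (L ∩ D).card = (L ∩ F 0).card + (L ∩ F 1).card + (L ∩ F 2).card := by
    rw [h1, card_biUnion]
    · rw [Fin.sum_univ_three]
    · intro s _ t _ hst
      exact (hF s t hst).mono inter_subset_right inter_subset_right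
  rw [← h2]
  exact card_sdiff_add_card_inter L D

/-- the number of balanced lines after suitable deletions -/
theorem exists_unbalanced {P : Fin n → ℝ × ℝ} (hP : GP P) (hn : Even n) (τ : ℕ)
    (Ts : Fin 3 → Finset (Fin n)) (hT : ∀ s, 2 * τ ≤ (Ts s).card)
    (hd : ∀ s t, s ≠ t → Disjoint (Ts s) (Ts t))
    (hL : ∀ q ∈ T P, ∃ s, Ts s ⊆ lowSet P q ∨ Disjoint (Ts s) (lowSet P q)) :
    ∃ D : Finset (Fin n), D.card ≤ 6 * τ ∧ Even D.card ∧
      ((halv P D).card : ℝ) ≤ 60 * (n : ℝ) ^ (4 / 3 : ℝ) * ((τ : ℝ) + 1) ^ (-(1 / 3) : ℝ) := by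
  classical
  rcases Nat.eq_zero_or_pos n with rfl | hn0
  · refine ⟨∅, by simp, by simp, ?_⟩
    have : halv P ∅ = ∅ := by
      ext q
      exact Fin.elim0 q.1
    rw [this]
    simp
  have hF : ∀ s : Fin 3, ∀ u : Fin (τ + 1), ∃ F : Finset (Fin n), F ⊆ Ts s ∧ F.card = 2 * (u : ℕ) := by
    intro s u
    apply exists_subset_card_eq
    have := u.2
    have := hT s
    omega
  choose F hFT hFc using hF
  set D : (Fin 3 → Fin (τ + 1)) → Finset (Fin n) := fun u => univ.biUnion (fun s => F s (u s))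
    with hDdef
  have hFd : ∀ u : Fin 3 → Fin (τ + 1), ∀ s t, s ≠ t → Disjoint (F s (u s)) (F t (u t)) :=
    fun u s t hst => (hd s t hst).mono (hFT _ _) (hFT _ _)
  have hDc : ∀ u, (D u).card = 2 * (u 0 : ℕ) + 2 * (u 1 : ℕ) + 2 * (u 2 : ℕ) := by
    intro u
    have : (D u).card = ∑ s, (F s (u s)).card := by
      rw [hDdef]
      exact card_biUnion (fun s _ t _ hst => hFd u s t hst)
    rw [this, Fin.sum_univ_three, hFc, hFc, hFc]
  have hDn : ∀ u, (D u).card ≤ n := by
    intro u
    simpa using card_le_univ (D u)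
  have hD6 : ∀ u, (D u).card ≤ 6 * τ := by
    intro u
    rw [hDc]
    have h0 := (u 0).2
    have h1 := (u 1).2
    have h2 := (u 2).2
    omega
  have hsplit : ∀ u (L : Finset (Fin n)), (L \ D u).card +
      ((L ∩ F 0 (u 0)).card + (L ∩ F 1 (u 1)).card + (L ∩ F 2 (u 2)).card) = L.card := by
    intro u L
    exact card_sdiff_union (F := fun s => F s (u s)) rfl (hFd u) L
  -- the window of levels
  set W : Finset ℕ := (range n).filter (fun j => n ≤ 2 * j + 2 + 6 * τ ∧ 2 * j + 2 ≤ n + 6 * τ)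
    with hW
  have hWc : W.card ≤ 6 * τ + 1 := by
    have hsub : W ⊆ Finset.Icc ((n - 2 - 6 * τ + 1) / 2) ((n - 2 - 6 * τ + 1) / 2 + 6 * τ) := by
      intro j hj
      rw [hW, mem_filter] at hj
      rw [Finset.mem_Icc]
      omega
    refine (card_le_card hsub).trans ?_
    rw [Nat.card_Icc]
    omega
  have hWn : ∀ k ∈ W, k ≤ n - 1 := by
    intro k hk
    rw [hW, mem_filter, mem_range] at hk
    omega
  have hmemW : ∀ u, halv P (D u) ⊆ EW P W := by
    intro u q hq
    rw [mem_halv] at hq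
    unfold EW
    rw [mem_filter, hW, mem_filter, mem_range, lev_eq]
    refine ⟨hq.1, ?_⟩
    have h1 := hsplit u (lowSet P q)
    have h2 := hDc u
    have h3 := hDn u
    have h6 := hD6 u
    have e0 : (lowSet P q ∩ F 0 (u 0)).card ≤ 2 * (u 0 : ℕ) := by
      rw [← hFc]; exact card_le_card inter_subset_right
    have e1 : (lowSet P q ∩ F 1 (u 1)).card ≤ 2 * (u 1 : ℕ) := by
      rw [← hFc]; exact card_le_card inter_subset_right
    have e2 : (lowSet P q ∩ F 2 (u 2)).card ≤ 2 * (u 2 : ℕ) := by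
      rw [← hFc]; exact card_le_card inter_subset_right
    have h4 := hq.2
    have h5 : (lowSet P q).card < n := by
      have hsub : (lowSet P q).card < (univ : Finset (Fin n)).card := by
        apply card_lt_card
        rw [ssubset_univ_iff]
        intro h
        have h7 : q.1 ∈ lowSet P q := by rw [h]; exact mem_univ _
        unfold lowSet at h7
        rw [mem_filter] at h7
        exact fst_notMem_low _ _ h7.2
      simpa using hsub
    refine ⟨h5, ?_, ?_⟩ <;> omega
  -- for every pair few choices of `u`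
  have hfew : ∀ q ∈ EW P W, ((univ : Finset (Fin 3 → Fin (τ + 1))).filter
      (fun u => q ∈ halv P (D u))).card ≤ (τ + 1) ^ 2 := by
    intro q hq
    have hqT : q ∈ T P := (mem_filter.mp hq).1
    obtain ⟨s, hs⟩ := hL q hqT
    have hcod : Fintype.card ({i : Fin 3 // i ≠ s} → Fin (τ + 1)) = (τ + 1) ^ 2 := by
      rw [Fintype.card_fun, Fintype.card_fin, Fintype.card_subtype_compl, Fintype.card_fin,
        Fintype.card_unique]
    rw [← hcod, ← card_univ]
    apply card_le_card_of_injOn (fun u => fun i : {i : Fin 3 // i ≠ s} => u i)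
    · intro u _
      exact mem_coe.mpr (mem_univ _)
    · intro u hu v hv huv
      rw [mem_coe, mem_filter] at hu hv
      have hag : ∀ i, i ≠ s → u i = v i := fun i hi => congrFun huv ⟨i, hi⟩
      have hu2 := (mem_halv.mp hu.2).2
      have hv2 := (mem_halv.mp hv.2).2
      have a1 := hsplit u (lowSet P q)
      have a2 := hsplit v (lowSet P q)
      have b1 := hDc u
      have b2 := hDc v
      have c1 := hDn u
      have c2 := hDn v
      have key : ∀ w : Fin 3 → Fin (τ + 1), (lowSet P q ∩ F s (w s)).card =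
          (if Ts s ⊆ lowSet P q then 2 * (w s : ℕ) else 0) := by
        intro w
        split_ifs with h
        · rw [inter_eq_right.mpr ((hFT s (w s)).trans h), hFc]
        · rcases hs with h' | h'
          · exact absurd h' h
          · rw [card_eq_zero, ← disjoint_iff_inter_eq_empty]
            exact (h'.mono_left (hFT s (w s))).symm
      have k1 := key u
      have k2 := key v
      have hval : (u s : ℕ) = (v s : ℕ) := by
        fin_cases s
        · have g1 := hag 1 (by decide)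
          have g2 := hag 2 (by decide)
          simp only [Fin.zero_eta, Fin.isValue] at k1 k2 ⊢
          rw [g1, g2] at a1 b1
          split_ifs at k1 k2 <;> omega
        · have g1 := hag 0 (by decide)
          have g2 := hag 2 (by decide)
          simp only [Fin.mk_one, Fin.isValue] at k1 k2 ⊢
          rw [g1, g2] at a1 b1
          split_ifs at k1 k2 <;> omega
        · have g1 := hag 0 (by decide)
          have g2 := hag 1 (by decide)
          simp only [Fin.reduceFinMk, Fin.isValue] at k1 k2 ⊢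
          rw [g1, g2] at a1 b1
          split_ifs at k1 k2 <;> omega
      funext i
      by_cases hi : i = s
      · rw [hi]; exact Fin.ext hval
      · exact hag i hi
  have hsum : ∑ u, (halv P (D u)).card ≤ (EW P W).card * (τ + 1) ^ 2 := by
    calc ∑ u, (halv P (D u)).card =
          ∑ u, ∑ q ∈ EW P W, (if q ∈ halv P (D u) then 1 else 0) := by
          apply sum_congr rfl
          intro u _
          rw [← card_filter]
          congr 1
          ext q
          rw [mem_filter]
          exact ⟨fun h => ⟨hmemW u h, h⟩, fun h => h.2⟩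
      _ = ∑ q ∈ EW P W, ∑ u, (if q ∈ halv P (D u) then 1 else 0) := sum_comm
      _ ≤ ∑ q ∈ EW P W, (τ + 1) ^ 2 := by
          apply sum_le_sum
          intro q hq
          rw [← card_filter]
          exact hfew q hq
      _ = _ := by rw [sum_const, smul_eq_mul]
  obtain ⟨u, hu⟩ : ∃ u, (halv P (D u)).card * (τ + 1) ≤ (EW P W).card := by
    by_contra hcon
    push Not at hcon
    have h1 : ∑ _u : Fin 3 → Fin (τ + 1), (EW P W).card < ∑ u, (halv P (D u)).card * (τ + 1) :=
      sum_lt_sum_of_nonempty univ_nonempty (fun u _ => hcon u)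
    rw [sum_const, smul_eq_mul, card_univ, Fintype.card_fun, Fintype.card_fin, Fintype.card_fin,
      ← sum_mul] at h1
    have h2 := Nat.mul_le_mul_right (τ + 1) hsum
    have h3 : (EW P W).card * (τ + 1) ^ 2 * (τ + 1) = (τ + 1) ^ 3 * (EW P W).card := by ring
    omega
  refine ⟨D u, hD6 u, ?_, ?_⟩
  · rw [hDc]
    exact ⟨(u 0 : ℕ) + (u 1 : ℕ) + (u 2 : ℕ), by omega⟩
  have hnr : (0 : ℝ) < n := by exact_mod_cast hn0
  have hτ1 : (1 : ℝ) ≤ (τ : ℝ) + 1 := by
    have : (0 : ℝ) ≤ τ := Nat.cast_nonneg τ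
    linarith
  have hτ0 : (0 : ℝ) < (τ : ℝ) + 1 := by linarith
  have hwin := window hP W hWn
  have e1 : (((n - 1 : ℕ) : ℝ) + 1) = n := by
    have : n - 1 + 1 = n := Nat.sub_add_cancel hn0
    exact_mod_cast this
  rw [e1] at hwin
  have hWr : (W.card : ℝ) ≤ 6 * ((τ : ℝ) + 1) := by
    have : (W.card : ℝ) ≤ 6 * τ + 1 := by exact_mod_cast hWc
    linarith
  have e2 : (W.card : ℝ) ^ (2 / 3 : ℝ) ≤ 10 / 3 * ((τ : ℝ) + 1) ^ (2 / 3 : ℝ) := by
    calc (W.card : ℝ) ^ (2 / 3 : ℝ) ≤ (6 * ((τ : ℝ) + 1)) ^ (2 / 3 : ℝ) :=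
          Real.rpow_le_rpow (Nat.cast_nonneg _) hWr (by norm_num)
      _ = 6 ^ (2 / 3 : ℝ) * ((τ : ℝ) + 1) ^ (2 / 3 : ℝ) :=
          Real.mul_rpow (by norm_num) hτ0.le
      _ ≤ _ := by
          apply mul_le_mul_of_nonneg_right _ (by positivity)
          have : ((6 : ℝ) ^ (2 / 3 : ℝ)) ^ 3 ≤ (10 / 3 : ℝ) ^ 3 := by
            rw [← Real.rpow_natCast, ← Real.rpow_mul (by norm_num)]
            norm_num
          exact le_of_pow_le_pow_left₀ (by norm_num) (by norm_num) this
  have hur : ((halv P (D u)).card : ℝ) * ((τ : ℝ) + 1) ≤ ((EW P W).card : ℝ) := by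
    exact_mod_cast hu
  have h1 : ((halv P (D u)).card : ℝ) * ((τ : ℝ) + 1) ≤
      (60 * (n : ℝ) ^ (4 / 3 : ℝ) * ((τ : ℝ) + 1) ^ (-(1 / 3) : ℝ)) * ((τ : ℝ) + 1) := by
    calc ((halv P (D u)).card : ℝ) * ((τ : ℝ) + 1) ≤
          18 * n * ((n : ℝ) ^ (1 / 3 : ℝ) * (W.card : ℝ) ^ (2 / 3 : ℝ)) := hur.trans hwin
      _ ≤ 18 * n * ((n : ℝ) ^ (1 / 3 : ℝ) * (10 / 3 * ((τ : ℝ) + 1) ^ (2 / 3 : ℝ))) := by gcongr
      _ = 60 * (n * (n : ℝ) ^ (1 / 3 : ℝ)) * ((τ : ℝ) + 1) ^ (2 / 3 : ℝ) := by ring
      _ = _ := by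
          have e3 : (n : ℝ) * (n : ℝ) ^ (1 / 3 : ℝ) = (n : ℝ) ^ (4 / 3 : ℝ) := by
            rw [show (4 / 3 : ℝ) = 1 + 1 / 3 by norm_num, Real.rpow_add hnr, Real.rpow_one]
          have e4 : ((τ : ℝ) + 1) ^ (-(1 / 3) : ℝ) * ((τ : ℝ) + 1) = ((τ : ℝ) + 1) ^ (2 / 3 : ℝ) := by
            rw [show (2 / 3 : ℝ) = -(1 / 3) + 1 by norm_num, Real.rpow_add hτ0, Real.rpow_one]
          rw [e3, ← e4]
          ring
  exact le_of_mul_le_mul_right h1 hτ0

end Pool.Agent.Y344.KD
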