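import Pool.Agent.H189R2.Iid.Low
import Pool.Agent.TH124.KE.Color

/-! The number of pairs whose level lies in a given finite set of levels. -/

set_option autoImplicit false

namespace Pool.Agent.Y344.KD

open Finset Pool.Agent.H189R2.Lev Pool.Agent.H189R2.Iid

variable {n : ℕ} {P : Fin n → ℝ × ℝ}

/-- the segment of a pair -/
def toSeg (P : Fin n → ℝ × ℝ) (q : Fin n × Fin n) : Pool.Agent.TH124.KE.Seg := (P q.2, P q.1)

theorem sl_X2 (p q : ℝ × ℝ) : Pool.Agent.TH124.KE.sl p q = - X2 p q := by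
  unfold Pool.Agent.TH124.KE.sl X2
  rw [← div_neg, neg_sub]

theorem X2_symm (p q : ℝ × ℝ) : X2 p q = X2 q p := by
  unfold X2
  rw [← neg_sub p.2 q.2, ← neg_sub q.1 p.1, neg_div_neg_eq]

theorem ke_gp (hP : GP P) : Pool.Agent.TH124.KE.GP (univ.image P) := by
  have inj : ∀ i j, (P i).1 = (P j).1 → i = j := hP.1
  refine ⟨?_, ?_⟩
  · intro p hp q hq h
    rw [mem_image] at hp hq
    obtain ⟨i, -, rfl⟩ := hp
    obtain ⟨j, -, rfl⟩ := hq
    rw [inj i j h]
  · intro p hp q hq r hr hpq hpr hqr h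
    rw [mem_image] at hp hq hr
    obtain ⟨i, -, rfl⟩ := hp
    obtain ⟨j, -, rfl⟩ := hq
    obtain ⟨k, -, rfl⟩ := hr
    rw [sl_X2, sl_X2, neg_inj] at h
    have h1 : (P i).1 ≠ (P j).1 := fun h => hpq (by rw [inj i j h])
    have h2 : (P i).1 ≠ (P k).1 := fun h => hpr (by rw [inj i k h])
    rcases lt_or_gt_of_ne h1 with h1 | h1 <;> rcases lt_or_gt_of_ne h2 with h2 | h2
    · rw [X2_symm (P i) (P j), X2_symm (P i) (P k)] at h
      have := hP.2 j i k i h1 h2 h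
      exact hqr (by rw [this.1])
    · rw [X2_symm (P i) (P j)] at h
      have := hP.2 j i i k h1 h2 h
      exact hpq (by rw [this.1])
    · rw [X2_symm (P i) (P k)] at h
      have := hP.2 i j k i h1 h2 h
      exact hpr (by rw [this.1])
    · have := hP.2 i j i k h1 h2 h
      exact hqr (by rw [this.2])

theorem cr_toSeg {q q' : Fin n × Fin n} (h : Pool.Agent.TH124.KE.Cr (toSeg P q) (toSeg P q')) :
    CrossP (P q.1) (P q.2) (P q'.1) (P q'.2) := by
  obtain ⟨hs, x, h1, h2, h3, h4, h5⟩ := h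
  simp only [Pool.Agent.TH124.KE.ss, toSeg, sl_X2, ne_eq, neg_inj] at hs
  rw [X2_symm, X2_symm (P q'.2)] at hs
  simp only [Pool.Agent.TH124.KE.ev, Pool.Agent.TH124.KE.ss, toSeg, sl_X2] at h5
  simp only [toSeg] at h1 h2 h3 h4
  rw [X2_symm (P q.2), X2_symm (P q'.2)] at h5
  have hY : ∀ i j : Fin n, (P i).1 ≠ (P j).1 → Y2 (P i) (P j) =
      (P j).1 * X2 (P i) (P j) + (P j).2 := by
    intro i j hij
    have : ((P i).1 - (P j).1) * X2 (P i) (P j) = (P j).2 - (P i).2 := by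
      unfold X2
      rw [mul_div_cancel₀ _ (sub_ne_zero.mpr hij)]
    unfold Y2
    linarith
  have hx : x = M4 (P q.1) (P q.2) (P q'.1) (P q'.2) := by
    unfold M4
    rw [eq_div_iff (by intro h; apply hs; linarith), hY q.1 q.2 (by linarith),
      hY q'.1 q'.2 (by linarith)]
    linarith
  rw [hx] at h1 h2 h3 h4
  exact ⟨h1, h2, h3, h4⟩

open Classical in
/-- pairs whose level is in `W` -/
noncomputable def EW (P : Fin n → ℝ × ℝ) (W : Finset ℕ) : Finset (Fin n × Fin n) :=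
  (T P).filter (fun q => lev P q ∈ W)

open Classical in
theorem window_s (hP : GP P) (W : Finset ℕ) {K : ℕ} (hW : ∀ k ∈ W, k ≤ K) (s : ℕ) (hs : 0 < s) :
    (s : ℝ) ^ 2 * (EW P W).card ≤ 3 * (s : ℝ) ^ 3 * n + (W.card : ℝ) ^ 2 * (2 * (3 * n * (K + 1))) := by
  have inj : Function.Injective P := fun i j h => hP.1 i j (by rw [h])
  have injS : Function.Injective (toSeg P) := by
    intro q q' h
    simp only [toSeg, Prod.mk.injEq] at h
    exact Prod.ext (inj h.2) (inj h.1)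
  set F := (EW P W).image (toSeg P) with hF
  have h1 := Pool.Agent.TH124.KE.crossing_lemma (ke_gp hP) (F := F) (by
    intro e he
    rw [hF, mem_image] at he
    obtain ⟨q, hq, rfl⟩ := he
    unfold EW at hq
    rw [mem_filter, mem_T] at hq
    exact ⟨mem_image_of_mem _ (mem_univ _), mem_image_of_mem _ (mem_univ _), hq.1⟩) s hs
  have hcF : F.card = (EW P W).card := card_image_of_injective _ injS
  have hcV : (univ.image P).card = n := by rw [card_image_of_injective _ inj]; simp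
  rw [hcF, hcV] at h1
  have h2 : (Pool.Agent.TH124.KE.crs F).card ≤ ((T P ×ˢ T P).filter (fun q => q.1 ≠ q.2 ∧
      lev P q.1 ∈ W ∧ lev P q.2 ∈ W ∧
      CrossP (P q.1.1) (P q.1.2) (P q.2.1) (P q.2.2))).card := by
    apply card_le_card_of_surjOn (fun q : (Fin n × Fin n) × (Fin n × Fin n) =>
      (toSeg P q.1, toSeg P q.2))
    rintro ⟨e, f⟩ hef
    unfold Pool.Agent.TH124.KE.crs at hef
    simp only [mem_coe, mem_filter, mem_product, hF, mem_image] at hef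
    obtain ⟨⟨⟨q, hq, rfl⟩, ⟨q', hq', rfl⟩⟩, hlt, hcr⟩ := hef
    unfold EW at hq hq'
    rw [mem_filter] at hq hq'
    refine ⟨(q, q'), ?_, rfl⟩
    simp only [mem_coe, mem_filter, mem_product]
    refine ⟨⟨hq.1, hq'.1⟩, ?_, hq.2, hq'.2, cr_toSeg hcr⟩
    rintro rfl
    exact lt_irrefl _ hlt
  have h3 := cross_window hP W hW
  have h4 := low_le hP K
  have h5 : ((Pool.Agent.TH124.KE.crs F).card : ℝ) ≤
      (W.card : ℝ) ^ 2 * (2 * (3 * n * (K + 1))) := by
    have h6 : ((Pool.Agent.TH124.KE.crs F).card : ℝ) ≤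
      (W.card : ℝ) ^ 2 * (2 * (((T P).filter (fun q => lev P q ≤ K)).card : ℝ)) := by
      exact_mod_cast h2.trans h3
    refine h6.trans ?_
    gcongr
  have h7 : (s : ℝ) ^ 2 * (EW P W).card ≤ 3 * (s : ℝ) ^ 3 * n +
      ((Pool.Agent.TH124.KE.crs F).card : ℝ) := by exact_mod_cast h1
  linarith

/-- **Windows of levels** (Dey's bound for an arbitrary set of levels). -/
theorem window (hP : GP P) (W : Finset ℕ) {K : ℕ} (hW : ∀ k ∈ W, k ≤ K) :
    ((EW P W).card : ℝ) ≤ 18 * n * (((K : ℝ) + 1) ^ (1 / 3 : ℝ) * (W.card : ℝ) ^ (2 / 3 : ℝ)) := by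
  classical
  rcases W.eq_empty_or_nonempty with rfl | hne
  · have : EW P ∅ = ∅ := by unfold EW; simp
    rw [this]
    simp
  have hw : (1 : ℝ) ≤ W.card := by exact_mod_cast hne.card_pos
  set w : ℝ := (W.card : ℝ) with hwdef
  set z : ℝ := ((K : ℝ) + 1) ^ (1 / 3 : ℝ) * w ^ (2 / 3 : ℝ) with hz
  have hK1 : (1 : ℝ) ≤ (K : ℝ) + 1 := by
    have : (0 : ℝ) ≤ K := Nat.cast_nonneg K
    linarith
  have hz1 : 1 ≤ z := by
    rw [hz]
    have a1 : (1 : ℝ) ≤ ((K : ℝ) + 1) ^ (1 / 3 : ℝ) := Real.one_le_rpow hK1 (by norm_num)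
    have a2 : (1 : ℝ) ≤ w ^ (2 / 3 : ℝ) := Real.one_le_rpow hw (by norm_num)
    nlinarith
  have hz3 : z ^ 3 = ((K : ℝ) + 1) * w ^ 2 := by
    rw [hz, mul_pow, ← Real.rpow_natCast, ← Real.rpow_mul (by linarith),
      ← Real.rpow_natCast (w ^ (2 / 3 : ℝ)), ← Real.rpow_mul (by linarith)]
    norm_num
  set s := ⌈z⌉₊ with hs
  have hs1 : z ≤ s := Nat.le_ceil z
  have hs2 : (s : ℝ) ≤ 2 * z := by
    have := Nat.ceil_lt_add_one (by linarith : 0 ≤ z)
    linarith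
  have hs0 : 0 < s := Nat.ceil_pos.mpr (by linarith)
  have h := window_s hP W hW s hs0
  have hsr : (0 : ℝ) < s := by exact_mod_cast hs0
  have hn : (0 : ℝ) ≤ n := Nat.cast_nonneg n
  -- divide by s ^ 2
  have h1 : (s : ℝ) ^ 2 * (EW P W).card ≤ (s : ℝ) ^ 2 * (9 * n * s) := by
    calc (s : ℝ) ^ 2 * (EW P W).card ≤ 3 * (s : ℝ) ^ 3 * n + w ^ 2 * (2 * (3 * n * (K + 1))) := h
      _ = 3 * (s : ℝ) ^ 3 * n + 6 * n * z ^ 3 := by rw [hz3]; ring
      _ ≤ 3 * (s : ℝ) ^ 3 * n + 6 * n * (s : ℝ) ^ 3 := by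
          have : z ^ 3 ≤ (s : ℝ) ^ 3 := pow_le_pow_left₀ (by linarith) hs1 3
          nlinarith
      _ = _ := by ring
  have h2 := le_of_mul_le_mul_left h1 (by positivity)
  calc ((EW P W).card : ℝ) ≤ 9 * n * s := h2
    _ ≤ 9 * n * (2 * z) := by gcongr
    _ = _ := by ring

end Pool.Agent.Y344.KD
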